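import Mathlib

set_option autoImplicit false

/-!
Preemptive schedules of unit jobs on two identical processors: schedules, events, blocks, normality,
maximal schedules, A-configurations.
-/

namespace Pool.Agent.R567.AF

open MeasureTheory Finset

/-- An instance: finitely many jobs (of processing time `1`) with integer release dates and a strict
partial order. -/
structure Instance where
  /-- the jobs -/
  Job : Type
  [fin : Fintype Job]
  [dec : DecidableEq Job]
  /-- release dates -/
  release : Job → ℕ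
  /-- precedence -/
  prec : Job → Job → Prop
  irrefl : ∀ a, ¬ prec a a
  trans : ∀ a b c, prec a b → prec b c → prec a c

attribute [instance] Instance.fin Instance.dec

/-- A plan tells for each of the two processors and each time which job is processed (`none`: the
processor is idle). -/
abbrev Plan (I : Instance) : Type := Fin 2 → ℝ → Option I.Job

variable {I : Instance}

/-- the times at which the job `a` is processed -/
def run (P : Plan I) (a : I.Job) : Set ℝ := {t | ∃ k, P k t = some a}

/-- start time of `a` -/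
noncomputable def S (P : Plan I) (a : I.Job) : ℝ := sInf (run P a)

/-- completion time of `a` -/
noncomputable def C (P : Plan I) (a : I.Job) : ℝ := sSup (run P a)

/-- `P` is a (feasible) preemptive schedule. -/
structure Feasible (P : Plan I) : Prop where
  /-- there are finitely many times at which something changes; between them the plan is constant
  (on half-open intervals `[f, f')`) -/
  breaks : ∃ F : Finset ℝ, ∀ k s t, s ≤ t → (∀ f ∈ F, ¬ (s < f ∧ f ≤ t)) → P k s = P k t
  /-- no job is processed by both processors at the same time -/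
  one : ∀ t a, ¬ (P 0 t = some a ∧ P 1 t = some a)
  /-- no part of a job is processed before its release date -/
  release : ∀ a, ∀ t ∈ run P a, (I.release a : ℝ) ≤ t
  /-- each job receives total processing `1` -/
  total : ∀ a, volume (run P a) = 1
  /-- if `a` precedes `b` then no part of `b` is processed before `a` completes -/
  prec : ∀ a b, I.prec a b → ∀ t ∈ run P b, C P a ≤ t

/-- the sum of the completion times -/
noncomputable def cost (P : Plan I) : ℝ := ∑ a : I.Job, C P a

/-- schedules with minimum sum of completion times -/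
def Optimal (P : Plan I) : Prop := Feasible P ∧ ∀ Q : Plan I, Feasible Q → cost P ≤ cost Q

/-- the set of events -/
noncomputable def events (P : Plan I) : Finset ℝ :=
  insert 0 ((univ : Finset I.Job).image (S P) ∪ (univ : Finset I.Job).image (C P))

/-- the number `q` of events -/
noncomputable def numEvents (P : Plan I) : ℕ := (events P).card

/-- the `i`-th event `e_i`, for `1 ≤ i ≤ q` -/
noncomputable def e (P : Plan I) (i : ℕ) : ℝ := ((events P).sort (· ≤ ·)).getD (i - 1) 0

/-- `ξ_i(a)`: the amount of `a` processed in the block `i`, that is in `[e_i, e_{i+1}]` -/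
noncomputable def xi (P : Plan I) (i : ℕ) (a : I.Job) : ℝ :=
  volume.real (run P a ∩ Set.Icc (e P i) (e P (i + 1)))

/-- a number is `l`-normal if it is an integer multiple of `2^(-l)` -/
def NormalNumber (l : ℕ) (x : ℝ) : Prop := ∃ z : ℤ, x = z / 2 ^ l

/-- the block `i` is `i`-normal -/
def NormalBlock (P : Plan I) (i : ℕ) : Prop :=
  NormalNumber i (e P (i + 1) - e P i) ∧ ∀ a : I.Job, NormalNumber (i + 1) (xi P i a)

/-- all blocks are normal -/
def Normal (P : Plan I) : Prop := ∀ i, 1 ≤ i → i + 1 ≤ numEvents P → NormalBlock P i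

/-- the abnormality point: the least `i` such that the block `i` is not `i`-normal, `∞` for a normal
schedule -/
noncomputable def abnormality (P : Plan I) : ℕ∞ :=
  sInf {x : ℕ∞ | ∃ i : ℕ, x = i ∧ 1 ≤ i ∧ i + 1 ≤ numEvents P ∧ ¬ NormalBlock P i}

/-- the relation `P ⊴ P'` -/
def Le (P P' : Plan I) : Prop :=
  P = P' ∨ (Optimal P' ∧ ¬ Optimal P) ∨
  (Optimal P ∧ Optimal P' ∧ Normal P' ∧ ¬ Normal P) ∨
  (Optimal P ∧ Optimal P' ∧ ¬ Normal P ∧ ¬ Normal P' ∧ abnormality P ≤ abnormality P')

/-- maximal schedules -/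
def Maximal (P : Plan I) : Prop := Feasible P ∧ ∀ P' : Plan I, Feasible P' → Le P P' → Le P' P

/-- independent jobs -/
def Independent (a b : I.Job) : Prop := ¬ I.prec a b ∧ ¬ I.prec b a

/-- The jobs `a`, `b` form an A-configuration of length `l` starting at `e_j`, where `e_{j'}` is the
completion time of `b`. -/
structure AConfiguration (P : Plan I) (a b : I.Job) (j j' : ℕ) (l : ℝ) : Prop where
  pos : 0 < l
  index : 1 ≤ j ∧ j < j' ∧ j' ≤ numEvents P
  /-- (i) -/
  completion : C P a = e P j ∧ C P b = e P j'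
  /-- (ii) `a` is processed without interruption on `[e_j - l, e_j]` ... -/
  runs : Set.Ico (e P j - l) (e P j) ⊆ run P a
  /-- ... and on no larger interval -/
  maxi : ∀ s t, s ≤ e P j - l → e P j ≤ t → Set.Ico s t ⊆ run P a → s = e P j - l ∧ t = e P j
  /-- (iii) `b` is processed without interruption on `[e_j, e_{j'}]` ... -/
  runs' : Set.Ico (e P j) (e P j') ⊆ run P b
  /-- ... and not at all during `[e_j - l, e_j]` -/
  rests : Disjoint (Set.Ico (e P j - l) (e P j)) (run P b)
  /-- (iv) -/
  started : S P b < e P j - l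
  /-- (v) `a` is independent of all jobs processed in the blocks `j, ..., j'` -/
  indep : ∀ i, j ≤ i → i ≤ j' → i + 1 ≤ numEvents P → ∀ x : I.Job, xi P i x ≠ 0 → Independent a x

/-- A-free schedules -/
def AFree (P : Plan I) : Prop := ¬ ∃ (a b : I.Job) (j j' : ℕ) (l : ℝ), AConfiguration P a b j j' l

/-! ### General facts -/

section Facts

variable {P : Plan I}

theorem right_const (hP : Feasible P) (t : ℝ) :
    ∃ ε > 0, ∀ s ∈ Set.Ico t (t + ε), ∀ k, P k s = P k t := by
  obtain ⟨F, hF⟩ := hP.breaks
  obtain ⟨ε, hε, h⟩ : ∃ ε > 0, ∀ f ∈ F, t < f → t + ε ≤ f := by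
    induction F using Finset.induction_on with
    | empty => exact ⟨1, one_pos, by simp⟩
    | insert f F hf ih =>
      clear hF ih
      have key : ∀ G : Finset ℝ, ∃ ε > 0, ∀ f ∈ G, t < f → t + ε ≤ f := by
        intro G
        induction G using Finset.induction_on with
        | empty => exact ⟨1, one_pos, by simp⟩
        | insert g G hg ih =>
          obtain ⟨ε, hε, h⟩ := ih
          by_cases hgt : t < g
          · refine ⟨min ε (g - t), lt_min hε (by linarith), fun f hf hft => ?_⟩
            rcases Finset.mem_insert.1 hf with rfl | hf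
            · have := min_le_right ε (f - t); linarith
            · have := min_le_left ε (g - t); have := h f hf hft; linarith
          · refine ⟨ε, hε, fun f hf hft => ?_⟩
            rcases Finset.mem_insert.1 hf with rfl | hf
            · exact absurd hft hgt
            · exact h f hf hft
      exact key _
  refine ⟨ε, hε, fun s hs k => (hF k t s hs.1 fun f hf hft => ?_).symm⟩
  have := h f hf hft.1
  linarith [hs.2, hft.2]

theorem run_right (hP : Feasible P) {a : I.Job} {t : ℝ} (ht : t ∈ run P a) :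
    ∃ ε > 0, Set.Ico t (t + ε) ⊆ run P a := by
  obtain ⟨ε, hε, h⟩ := right_const hP t
  obtain ⟨k, hk⟩ := ht
  exact ⟨ε, hε, fun s hs => ⟨k, by rw [h s hs k, hk]⟩⟩

theorem run_right' (hP : Feasible P) {a : I.Job} {t : ℝ} (ht : t ∉ run P a) :
    ∃ ε > 0, Disjoint (Set.Ico t (t + ε)) (run P a) := by
  obtain ⟨ε, hε, h⟩ := right_const hP t
  refine ⟨ε, hε, Set.disjoint_left.2 fun s hs hsr => ht ?_⟩
  obtain ⟨k, hk⟩ := hsr
  exact ⟨k, by rw [← h s hs k, hk]⟩

theorem measurable_on (hP : Feasible P) (k : Fin 2) (o : Option I.Job) :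
    MeasurableSet {t | P k t = o} := by
  classical
  obtain ⟨F, hF⟩ := hP.breaks
  have h : {t | P k t = o} = ⋃ K ∈ (F.powerset : Set (Finset ℝ)),
      ({t | F.filter (· ≤ t) = K} ∩ {t | F.filter (· ≤ t) = K ∧ P k t = o}) := by
    ext t
    simp only [Set.mem_ofPred_eq, Set.mem_iUnion, Set.mem_inter_iff]
    constructor
    · intro ht
      exact ⟨F.filter (· ≤ t), mem_coe.2 (mem_powerset.2 (filter_subset _ _)), rfl, rfl, ht⟩
    · rintro ⟨K, _, _, _, h⟩; exact h
  have hdep : ∀ s t, F.filter (· ≤ s) = F.filter (· ≤ t) → P k s = P k t := by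
    have key : ∀ s t, s ≤ t → F.filter (· ≤ s) = F.filter (· ≤ t) → P k s = P k t := by
      intro s t hst he
      refine hF k s t hst fun f hf hft => ?_
      have h1 : f ∈ F.filter (· ≤ t) := mem_filter.2 ⟨hf, hft.2⟩
      rw [← he] at h1
      exact absurd (mem_filter.1 h1).2 (not_le.2 hft.1)
    intro s t he
    rcases le_total s t with h | h
    · exact key s t h he
    · exact (key t s h he.symm).symm
  rw [h]
  refine Set.Finite.measurableSet_biUnion (Finset.finite_toSet _) fun K _ => ?_
  have hK : MeasurableSet {t : ℝ | F.filter (· ≤ t) = K} := by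
    by_cases hKF : K ⊆ F
    · have : {t : ℝ | F.filter (· ≤ t) = K} =
          ⋂ f ∈ (F : Set ℝ), {t : ℝ | f ∈ K ↔ f ≤ t} := by
        ext t
        simp only [Set.mem_ofPred_eq, Set.mem_iInter]
        constructor
        · rintro rfl f hf
          simp only [mem_coe] at hf
          simp [hf]
        · intro hh
          ext f
          simp only [mem_filter]
          constructor
          · rintro ⟨h1, h2⟩
            exact (hh f (mem_coe.2 h1)).2 h2
          · intro h1
            exact ⟨hKF h1, (hh f (mem_coe.2 (hKF h1))).1 h1⟩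
      rw [this]
      refine Set.Finite.measurableSet_biInter (Finset.finite_toSet _) fun f _ => ?_
      by_cases hf : f ∈ K
      · simp only [hf, true_iff]
        exact measurableSet_Ici
      · simp only [hf, false_iff, not_le]
        exact measurableSet_Iio
    · have : {t : ℝ | F.filter (· ≤ t) = K} = ∅ := by
        ext t
        simp only [Set.mem_ofPred_eq, Set.mem_empty_iff_false, iff_false]
        rintro rfl
        exact hKF (filter_subset _ _)
      rw [this]
      exact MeasurableSet.empty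
  refine hK.inter ?_
  by_cases hex : ∃ t, F.filter (· ≤ t) = K ∧ P k t = o
  · obtain ⟨t₀, h1, h2⟩ := hex
    have : {t : ℝ | F.filter (· ≤ t) = K ∧ P k t = o} = {t : ℝ | F.filter (· ≤ t) = K} := by
      ext t
      simp only [Set.mem_ofPred_eq, and_iff_left_iff_imp]
      intro ht
      rw [hdep t t₀ (by rw [ht, h1]), h2]
    rw [this]
    exact hK
  · have : {t : ℝ | F.filter (· ≤ t) = K ∧ P k t = o} = ∅ := by
      ext t
      simp only [Set.mem_ofPred_eq, Set.mem_empty_iff_false, iff_false]
      exact fun ht => hex ⟨t, ht⟩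
    rw [this]
    exact MeasurableSet.empty

theorem run_eq (P : Plan I) (a : I.Job) : run P a = {t | P 0 t = some a} ∪ {t | P 1 t = some a} := by
  ext t
  simp [run, Fin.exists_fin_two]

theorem measurable_run (hP : Feasible P) (a : I.Job) : MeasurableSet (run P a) := by
  rw [run_eq]
  exact (measurable_on hP 0 _).union (measurable_on hP 1 _)

/-- the amount of `a` processed during `[s, t)` -/
noncomputable def w (P : Plan I) (a : I.Job) (s t : ℝ) : ℝ := volume.real (run P a ∩ Set.Ico s t)

theorem w_nonneg (a : I.Job) (s t : ℝ) : 0 ≤ w P a s t := measureReal_nonneg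

theorem w_le (a : I.Job) {s t : ℝ} (h : s ≤ t) : w P a s t ≤ t - s := by
  have h1 : volume.real (run P a ∩ Set.Ico s t) ≤ volume.real (Set.Ico s t) :=
    measureReal_mono Set.inter_subset_right (by simp)
  rw [Real.volume_real_Ico_of_le h] at h1
  exact h1

theorem w_add (a : I.Job) {s t u : ℝ} (hst : s ≤ t) (htu : t ≤ u) :
    w P a s u = w P a s t + w P a t u := by
  unfold w
  have h1 : run P a ∩ Set.Ico s u = (run P a ∩ Set.Ico s u) ∩ Set.Iio t ∪
      (run P a ∩ Set.Ico s u) \ Set.Iio t := by
    rw [Set.inter_union_sdiff]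
  have h2 := measureReal_inter_add_sdiff (μ := volume) (s := run P a ∩ Set.Ico s u)
    (t := Set.Iio t) measurableSet_Iio
    (ne_top_of_le_ne_top (by simp : volume (Set.Ico s u) ≠ ⊤) (measure_mono Set.inter_subset_right))
  rw [← h2]
  congr 2
  · ext x
    simp only [Set.mem_inter_iff, Set.mem_Ico, Set.mem_Iio]
    constructor
    · rintro ⟨⟨h1, h2, h3⟩, h4⟩; exact ⟨h1, h2, h4⟩
    · rintro ⟨h1, h2, h3⟩; exact ⟨⟨h1, h2, by linarith⟩, h3⟩
  · ext x
    simp only [Set.mem_inter_iff, Set.mem_Ico, Set.mem_Iio, Set.mem_sdiff, not_lt]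
    constructor
    · rintro ⟨⟨h1, h2, h3⟩, h4⟩; exact ⟨h1, h4, h3⟩
    · rintro ⟨h1, h2, h3⟩; exact ⟨⟨h1, by linarith, h3⟩, h2⟩

theorem capacity (hP : Feasible P) (A : Finset I.Job) {s t : ℝ} (h : s ≤ t) :
    ∑ a ∈ A, w P a s t ≤ 2 * (t - s) := by
  have hk : ∀ k : Fin 2, ∑ a ∈ A, volume.real ({x | P k x = some a} ∩ Set.Ico s t) ≤ t - s := by
    intro k
    have h1 : volume.real (⋃ a ∈ A, ({x | P k x = some a} ∩ Set.Ico s t)) =
        ∑ a ∈ A, volume.real ({x | P k x = some a} ∩ Set.Ico s t) := by
      refine measureReal_biUnion_finset ?_ (fun a _ => (measurable_on hP k _).inter measurableSet_Ico)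
        (fun a _ => ne_top_of_le_ne_top (by simp : volume (Set.Ico s t) ≠ ⊤)
          (measure_mono Set.inter_subset_right))
      intro a _ b _ hab
      rw [Function.onFun, Set.disjoint_left]
      rintro x ⟨hx, _⟩ ⟨hy, _⟩
      simp only [Set.mem_ofPred_eq] at hx hy
      rw [hx] at hy
      exact hab (Option.some_injective _ hy)
    rw [← h1, ← Real.volume_real_Ico_of_le h]
    refine measureReal_mono ?_ (by simp)
    intro x hx
    simp only [Set.mem_iUnion] at hx
    obtain ⟨a, _, hx⟩ := hx
    exact hx.2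
  have h2 : ∀ a, w P a s t ≤ volume.real ({x | P 0 x = some a} ∩ Set.Ico s t) +
      volume.real ({x | P 1 x = some a} ∩ Set.Ico s t) := by
    intro a
    unfold w
    rw [run_eq, Set.union_inter_distrib_right]
    exact measureReal_union_le _ _
  calc ∑ a ∈ A, w P a s t ≤ ∑ a ∈ A, (volume.real ({x | P 0 x = some a} ∩ Set.Ico s t) +
        volume.real ({x | P 1 x = some a} ∩ Set.Ico s t)) := sum_le_sum fun a _ => h2 a
    _ ≤ (t - s) + (t - s) := by rw [sum_add_distrib]; exact add_le_add (hk 0) (hk 1)
    _ = 2 * (t - s) := by ring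

theorem run_nonempty (hP : Feasible P) (a : I.Job) : (run P a).Nonempty := by
  rw [Set.nonempty_iff_ne_empty]
  intro h
  have := hP.total a
  rw [h] at this
  simp at this

theorem run_nonneg (hP : Feasible P) {a : I.Job} {t : ℝ} (ht : t ∈ run P a) : 0 ≤ t :=
  le_trans (Nat.cast_nonneg _) (hP.release a t ht)

theorem bddBelow (hP : Feasible P) (a : I.Job) : BddBelow (run P a) :=
  ⟨0, fun _ ht => run_nonneg hP ht⟩

theorem bddAbove (hP : Feasible P) (a : I.Job) : BddAbove (run P a) := by
  obtain ⟨F, hF⟩ := hP.breaks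
  obtain ⟨M, hM⟩ : ∃ M : ℝ, ∀ f ∈ F, f ≤ M := by
    obtain ⟨M, hM⟩ := F.finite_toSet.bddAbove
    exact ⟨M, fun f hf => hM (mem_coe.2 hf)⟩
  refine ⟨M, fun t ht => ?_⟩
  by_contra hcon
  push Not at hcon
  obtain ⟨k, hk⟩ := ht
  have h1 : Set.Ici t ⊆ run P a := by
    intro s hs
    refine ⟨k, ?_⟩
    rw [← hF k t s hs fun f hf hft => ?_, hk]
    exact absurd (hM f hf) (not_le.2 (hcon.trans hft.1))
  have h2 := measure_mono (μ := volume) h1
  rw [hP.total a] at h2
  simp at h2

theorem S_le (hP : Feasible P) {a : I.Job} {t : ℝ} (ht : t ∈ run P a) : S P a ≤ t :=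
  csInf_le (bddBelow hP a) ht

theorem lt_C (hP : Feasible P) {a : I.Job} {t : ℝ} (ht : t ∈ run P a) : t < C P a := by
  obtain ⟨ε, hε, h⟩ := run_right hP ht
  have h1 : t + ε / 2 ∈ run P a := h ⟨by linarith, by linarith⟩
  have h2 : t + ε / 2 ≤ C P a := le_csSup (bddAbove hP a) h1
  linarith

theorem w_zero_of_C (hP : Feasible P) {a : I.Job} {s t : ℝ} (h : C P a ≤ s) : w P a s t = 0 := by
  unfold w
  have : run P a ∩ Set.Ico s t = ∅ := by
    ext x
    simp only [Set.mem_inter_iff, Set.mem_Ico, Set.mem_empty_iff_false, iff_false]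
    rintro ⟨h1, h2, _⟩
    exact absurd (lt_C hP h1) (not_lt.2 (h.trans h2))
  rw [this]
  simp

theorem w_zero_of_S (hP : Feasible P) {a : I.Job} {s t : ℝ} (h : t ≤ S P a) : w P a s t = 0 := by
  unfold w
  have : run P a ∩ Set.Ico s t = ∅ := by
    ext x
    simp only [Set.mem_inter_iff, Set.mem_Ico, Set.mem_empty_iff_false, iff_false]
    rintro ⟨h1, _, h2⟩
    exact absurd (S_le hP h1) (not_le.2 (h2.trans_le h))
  rw [this]
  simp

theorem w_total (hP : Feasible P) {a : I.Job} {s t : ℝ} (hs : s ≤ S P a) (ht : C P a ≤ t) :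
    w P a s t = 1 := by
  unfold w
  have : run P a ∩ Set.Ico s t = run P a := by
    ext x
    simp only [Set.mem_inter_iff, Set.mem_Ico, and_iff_left_iff_imp]
    intro h
    exact ⟨hs.trans (S_le hP h), (lt_C hP h).trans_le ht⟩
  rw [this, Measure.real, hP.total a]
  simp

theorem S_nonneg (hP : Feasible P) (a : I.Job) : 0 ≤ S P a :=
  le_csInf (run_nonempty hP a) fun _ ht => run_nonneg hP ht

theorem release_le_S (hP : Feasible P) (a : I.Job) : (I.release a : ℝ) ≤ S P a :=
  le_csInf (run_nonempty hP a) fun t ht => hP.release a t ht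

theorem C_le_S (hP : Feasible P) {a b : I.Job} (h : I.prec a b) : C P a ≤ S P b :=
  le_csInf (run_nonempty hP b) fun t ht => hP.prec a b h t ht

theorem S_le_C (hP : Feasible P) (a : I.Job) : S P a ≤ C P a := by
  obtain ⟨t, ht⟩ := run_nonempty hP a
  exact (S_le hP ht).trans (lt_C hP ht).le

theorem S_add_one_le (hP : Feasible P) (a : I.Job) : S P a + 1 ≤ C P a := by
  have h1 := w_total hP (a := a) le_rfl le_rfl
  have h2 := w_le (P := P) a (S_le_C hP a)
  linarith

theorem empty_of_w (hP : Feasible P) {a : I.Job} {s t : ℝ} (h : w P a s t = 0) :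
    Disjoint (Set.Ico s t) (run P a) := by
  rw [Set.disjoint_left]
  intro x hx hr
  obtain ⟨ε, hε, h1⟩ := run_right hP hr
  have h2 : Set.Ico x (min (x + ε) t) ⊆ run P a ∩ Set.Ico s t := by
    intro y hy
    exact ⟨h1 ⟨hy.1, hy.2.trans_le (min_le_left _ _)⟩, hx.1.trans hy.1,
      hy.2.trans_le (min_le_right _ _)⟩
  have h3 : volume.real (Set.Ico x (min (x + ε) t)) ≤ volume.real (run P a ∩ Set.Ico s t) :=
    measureReal_mono h2 (ne_top_of_le_ne_top (by simp : volume (Set.Ico s t) ≠ ⊤)
      (measure_mono Set.inter_subset_right))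
  have h4 : x < min (x + ε) t := lt_min (by linarith) hx.2
  rw [Real.volume_real_Ico_of_le h4.le] at h3
  unfold w at h
  rw [h] at h3
  linarith

theorem full_of_w (hP : Feasible P) {a : I.Job} {s t : ℝ} (h : w P a s t = t - s) :
    Set.Ico s t ⊆ run P a := by
  intro x hx
  by_contra hr
  obtain ⟨ε, hε, h1⟩ := run_right' hP hr
  have h4 : x < min (x + ε) t := lt_min (by linarith) hx.2
  have h5 := w_add (P := P) a (s := s) (t := x) (u := t) hx.1 hx.2.le
  have h6 := w_add (P := P) a (s := x) (t := min (x + ε) t) (u := t) h4.le (min_le_right _ _)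
  have h7 : w P a x (min (x + ε) t) = 0 := by
    unfold w
    have : run P a ∩ Set.Ico x (min (x + ε) t) = ∅ := by
      ext y
      simp only [Set.mem_inter_iff, Set.mem_Ico, Set.mem_empty_iff_false, iff_false]
      rintro ⟨h8, h9, h10⟩
      exact (Set.disjoint_left.1 h1) ⟨h9, h10.trans_le (min_le_left _ _)⟩ h8
    rw [this]
    simp
  have h8 := w_le (P := P) a (s := s) (t := x) hx.1
  have h9 := w_le (P := P) a (s := min (x + ε) t) (t := t) (min_le_right _ _)
  linarith

theorem xi_zero_of_C (hP : Feasible P) {a : I.Job} {i : ℕ} (h : C P a ≤ e P i) : xi P i a = 0 := by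
  unfold xi
  have : run P a ∩ Set.Icc (e P i) (e P (i + 1)) = ∅ := by
    ext x
    simp only [Set.mem_inter_iff, Set.mem_Icc, Set.mem_empty_iff_false, iff_false]
    rintro ⟨h1, h2, _⟩
    exact absurd (lt_C hP h1) (not_lt.2 (h.trans h2))
  rw [this]
  simp

theorem e_eq (P : Plan I) {i : ℕ} (hi : 1 ≤ i) (hq : i ≤ numEvents P) :
    e P i = (events P).orderEmbOfFin rfl ⟨i - 1, by unfold numEvents at hq; omega⟩ := by
  unfold e
  rw [Finset.orderEmbOfFin_apply]
  rw [List.getD_eq_getElem _ _ (by rw [Finset.length_sort]; unfold numEvents at hq; omega)]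
  rfl

theorem e_lt (P : Plan I) {i j : ℕ} (hi : 1 ≤ i) (hij : i < j) (hq : j ≤ numEvents P) :
    e P i < e P j := by
  rw [e_eq P hi (by omega), e_eq P (by omega) hq]
  exact (Finset.orderEmbOfFin _ _).strictMono (by simp only [Fin.mk_lt_mk]; omega)

theorem exists_index (P : Plan I) {x : ℝ} (hx : x ∈ events P) :
    ∃ i, 1 ≤ i ∧ i ≤ numEvents P ∧ e P i = x := by
  have h1 : x ∈ Set.range ((events P).orderEmbOfFin rfl) := by
    rw [Finset.range_orderEmbOfFin]; exact hx
  obtain ⟨⟨i, hi⟩, h2⟩ := h1
  refine ⟨i + 1, by omega, hi, ?_⟩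
  rw [e_eq P (by omega) hi]
  exact h2

theorem C_mem_events (P : Plan I) (a : I.Job) : C P a ∈ events P := by
  unfold events
  simp

/-- If there is an optimal schedule then there is a maximal one. -/
theorem exists_maximal (h : ∃ P : Plan I, Optimal P) : ∃ P : Plan I, Maximal P := by
  classical
  by_cases hN : ∃ P : Plan I, Optimal P ∧ Normal P
  · obtain ⟨P, h1, h2⟩ := hN
    refine ⟨P, h1.1, fun P' _ hle => ?_⟩
    rcases hle with rfl | ⟨_, h3⟩ | ⟨_, _, _, h3⟩ | ⟨_, _, h3, _⟩
    · exact Or.inl rfl
    · exact absurd h1 h3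
    · exact absurd h2 h3
    · exact absurd h2 h3
  · push Not at hN
    -- abnormality points of optimal schedules are bounded natural numbers
    have hb : ∀ P : Plan I, Optimal P →
        ∃ n : ℕ, n ≤ 2 * Fintype.card I.Job + 1 ∧ abnormality P = n := by
      intro P hP
      have h1 := hN P hP
      unfold Normal at h1
      push Not at h1
      obtain ⟨i, h2, h3, h4⟩ := h1
      have h5 : abnormality P ≤ (i : ℕ∞) := sInf_le ⟨i, rfl, h2, h3, h4⟩
      have h6 : numEvents P ≤ 2 * Fintype.card I.Job + 1 := by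
        unfold numEvents events
        refine (card_insert_le _ _).trans ?_
        have h7 := card_union_le ((univ : Finset I.Job).image (S P)) ((univ : Finset I.Job).image (C P))
        have h8 := card_image_le (s := (univ : Finset I.Job)) (f := S P)
        have h9 := card_image_le (s := (univ : Finset I.Job)) (f := C P)
        rw [card_univ] at h8 h9
        omega
      obtain ⟨n, hn⟩ := ENat.ne_top_iff_exists.1 (ne_top_of_le_ne_top (ENat.natCast_ne_top i) h5)
      refine ⟨n, ?_, hn.symm⟩
      rw [← hn] at h5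
      have : n ≤ i := by exact_mod_cast h5
      omega
    let p : ℕ → Prop := fun n => ∃ P : Plan I, Optimal P ∧ abnormality P = n
    obtain ⟨P₀, hP₀⟩ := h
    obtain ⟨n₀, hn₀, hn₀'⟩ := hb P₀ hP₀
    have hp : p (Nat.findGreatest p (2 * Fintype.card I.Job + 1)) :=
      Nat.findGreatest_spec (m := n₀) hn₀ ⟨P₀, hP₀, hn₀'⟩
    obtain ⟨P, h1, h2⟩ := hp
    refine ⟨P, h1.1, fun P' _ hle => ?_⟩
    rcases hle with rfl | ⟨_, h3⟩ | ⟨_, h3, h4, _⟩ | ⟨_, h3, h4, h5, _⟩
    · exact Or.inl rfl
    · exact absurd h1 h3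
    · exact absurd h4 (hN P' h3)
    · obtain ⟨n, h6, h7⟩ := hb P' h3
      refine Or.inr (Or.inr (Or.inr ⟨h3, h1, h5, h4, ?_⟩))
      rw [h2, h7]
      have h8 : p n := ⟨P', h3, h7⟩
      exact_mod_cast Nat.le_findGreatest h6 h8

/-- Maximal schedules are optimal, if there is an optimal one. -/
theorem optimal_of_maximal (h : ∃ P : Plan I, Optimal P) (hP : Maximal P) : Optimal P := by
  by_contra hcon
  obtain ⟨Q, hQ⟩ := h
  rcases hP.2 Q hQ.1 (Or.inr (Or.inl ⟨hQ, hcon⟩)) with h | ⟨h, _⟩ | ⟨_, h, _⟩ | ⟨_, h, _⟩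
  · exact hcon (h ▸ hQ)
  · exact hcon h
  · exact hcon h
  · exact hcon h

end Facts

end Pool.Agent.R567.AF
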