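import Pool.Agent.R567.AF1

set_option autoImplicit false

/-!
The instance with 15 jobs, and an explicit schedule of cost `77.5`.
-/

namespace Pool.Agent.R567.AF

open MeasureTheory Finset

/-- the 15 jobs -/
abbrev J : Type := (Fin 3 ⊕ Fin 2) ⊕ (Fin 2 ⊕ Fin 8)

/-- the jobs `p_0, p_1, p_2` -/
abbrev jp (i : Fin 3) : J := Sum.inl (Sum.inl i)
/-- the jobs `a_0, a_1` -/
abbrev ja (i : Fin 2) : J := Sum.inl (Sum.inr i)
/-- the jobs `c_0, c_1` -/
abbrev jc (i : Fin 2) : J := Sum.inr (Sum.inl i)
/-- the jobs `h_0, ..., h_7` -/
abbrev jh (i : Fin 8) : J := Sum.inr (Sum.inr i)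

/-- precedence: every `p` before every `a`; every `c` before every `h`; `h_i` before `h_j` for `i < j` -/
def jprec : J → J → Prop
  | Sum.inl (Sum.inl _), Sum.inl (Sum.inr _) => True
  | Sum.inr (Sum.inl _), Sum.inr (Sum.inr _) => True
  | Sum.inr (Sum.inr i), Sum.inr (Sum.inr j) => i < j
  | _, _ => False

/-- the jobs `c` are released at time `2`, all other jobs at time `0` -/
def jrelease : J → ℕ
  | Sum.inr (Sum.inl _) => 2
  | _ => 0

/-- the instance -/
@[reducible] def inst : Instance where
  Job := J
  release := jrelease
  prec := jprec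
  irrefl := by rintro ((i | i) | (i | i)) h <;> simp_all [jprec]
  trans := by
    rintro ((a | a) | (a | a)) ((b | b) | (b | b)) ((c | c) | (c | c)) h1 h2 <;>
      simp_all only [jprec]
    exact lt_trans h1 h2

/-- evaluate a piecewise constant function given by the list of the right end points of its pieces -/
noncomputable def look : List (ℝ × Option J) → ℝ → Option J
  | [], _ => none
  | (f, o) :: l, t => if t < f then o else look l t

/-- the first processor of the explicit schedule -/
noncomputable def q0 : ℝ → Option J :=
  look [(0, none), (1, some (jp 0)), (3 / 2, some (jp 1)), (2, some (ja 0)), (3, some (jc 0)),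
    (7 / 2, some (ja 0)), (4, some (ja 1))]

/-- the second processor of the explicit schedule -/
noncomputable def q1 : ℝ → Option J :=
  look [(0, none), (1 / 2, some (jp 1)), (3 / 2, some (jp 2)), (2, some (ja 1)), (3, some (jc 1)),
    (4, some (jh 0)), (5, some (jh 1)), (6, some (jh 2)), (7, some (jh 3)), (8, some (jh 4)),
    (9, some (jh 5)), (10, some (jh 6)), (11, some (jh 7))]

/-- the explicit schedule -/
noncomputable def sched : Plan inst := fun k => if k = 0 then q0 else q1

theorem look_lt {f : ℝ} {o : Option J} {l : List (ℝ × Option J)} {t : ℝ} (h : t < f) :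
    look ((f, o) :: l) t = o := if_pos h

theorem look_ge {f : ℝ} {o : Option J} {l : List (ℝ × Option J)} {t : ℝ} (h : f ≤ t) :
    look ((f, o) :: l) t = look l t := if_neg (not_lt.2 h)

theorem look_cases {f : ℝ} {o a : Option J} {l : List (ℝ × Option J)} {t : ℝ}
    (h : look ((f, o) :: l) t = a) : (t < f ∧ o = a) ∨ (f ≤ t ∧ look l t = a) := by
  rcases lt_or_ge t f with h0 | h0
  · rw [look_lt h0] at h; exact Or.inl ⟨h0, h⟩
  · rw [look_ge h0] at h; exact Or.inr ⟨h0, h⟩

theorem look_nil {a : J} {t : ℝ} (h : look [] t = some a) : False := by simp [look] at h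

theorem look_congr {s t : ℝ} : ∀ l : List (ℝ × Option J), (∀ x ∈ l, (s < x.1 ↔ t < x.1)) →
    look l s = look l t
  | [], _ => rfl
  | (f, o) :: l, h => by
    have h1 := h (f, o) List.mem_cons_self
    have h2 := look_congr l fun x hx => h x (List.mem_cons_of_mem _ hx)
    simp only [look, h1, h2]

theorem mem_run_sched (t : ℝ) (a : J) : t ∈ run (I := inst) sched a ↔ q0 t = some a ∨ q1 t = some a := by
  simp [run, Fin.exists_fin_two, sched]

theorem run_p0 : run (I := inst) sched (jp 0) = Set.Ico 0 1 := by
  ext t
  rw [mem_run_sched]
  constructor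
  · rintro (h | h)
    · unfold q0 at h
      (repeat' (refine (look_cases h).elim (fun ⟨_, h⟩ => ?_) (fun ⟨_, h⟩ => ?_))) <;>
      first
      | (exfalso; simp at h; done)
      | (exfalso; exact look_nil h)
      | (constructor <;> linarith)
      | (left; constructor <;> linarith)
      | (right; constructor <;> linarith)
    · unfold q1 at h
      (repeat' (refine (look_cases h).elim (fun ⟨_, h⟩ => ?_) (fun ⟨_, h⟩ => ?_))) <;>
      first
      | (exfalso; simp at h; done)
      | (exfalso; exact look_nil h)
      | (constructor <;> linarith)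
      | (left; constructor <;> linarith)
      | (right; constructor <;> linarith)
  · rintro ⟨h1, h2⟩
    left; unfold q0; (repeat (rw [look_ge (by linarith)])); rw [look_lt (by linarith)]

theorem run_p1 : run (I := inst) sched (jp 1) = Set.Ico 0 (1 / 2) ∪ Set.Ico 1 (3 / 2) := by
  ext t
  rw [mem_run_sched]
  constructor
  · rintro (h | h)
    · unfold q0 at h
      (repeat' (refine (look_cases h).elim (fun ⟨_, h⟩ => ?_) (fun ⟨_, h⟩ => ?_))) <;>
      first
      | (exfalso; simp at h; done)
      | (exfalso; exact look_nil h)
      | (constructor <;> linarith)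
      | (left; constructor <;> linarith)
      | (right; constructor <;> linarith)
    · unfold q1 at h
      (repeat' (refine (look_cases h).elim (fun ⟨_, h⟩ => ?_) (fun ⟨_, h⟩ => ?_))) <;>
      first
      | (exfalso; simp at h; done)
      | (exfalso; exact look_nil h)
      | (constructor <;> linarith)
      | (left; constructor <;> linarith)
      | (right; constructor <;> linarith)
  · rintro (⟨h1, h2⟩ | ⟨h1, h2⟩)
    · right; unfold q1; (repeat (rw [look_ge (by linarith)])); rw [look_lt (by linarith)]
    · left; unfold q0; (repeat (rw [look_ge (by linarith)])); rw [look_lt (by linarith)]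

theorem run_p2 : run (I := inst) sched (jp 2) = Set.Ico (1 / 2) (3 / 2) := by
  ext t
  rw [mem_run_sched]
  constructor
  · rintro (h | h)
    · unfold q0 at h
      (repeat' (refine (look_cases h).elim (fun ⟨_, h⟩ => ?_) (fun ⟨_, h⟩ => ?_))) <;>
      first
      | (exfalso; simp at h; done)
      | (exfalso; exact look_nil h)
      | (constructor <;> linarith)
      | (left; constructor <;> linarith)
      | (right; constructor <;> linarith)
    · unfold q1 at h
      (repeat' (refine (look_cases h).elim (fun ⟨_, h⟩ => ?_) (fun ⟨_, h⟩ => ?_))) <;>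
      first
      | (exfalso; simp at h; done)
      | (exfalso; exact look_nil h)
      | (constructor <;> linarith)
      | (left; constructor <;> linarith)
      | (right; constructor <;> linarith)
  · rintro ⟨h1, h2⟩
    right; unfold q1; (repeat (rw [look_ge (by linarith)])); rw [look_lt (by linarith)]

theorem run_a0 : run (I := inst) sched (ja 0) = Set.Ico (3 / 2) 2 ∪ Set.Ico 3 (7 / 2) := by
  ext t
  rw [mem_run_sched]
  constructor
  · rintro (h | h)
    · unfold q0 at h
      (repeat' (refine (look_cases h).elim (fun ⟨_, h⟩ => ?_) (fun ⟨_, h⟩ => ?_))) <;>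
      first
      | (exfalso; simp at h; done)
      | (exfalso; exact look_nil h)
      | (constructor <;> linarith)
      | (left; constructor <;> linarith)
      | (right; constructor <;> linarith)
    · unfold q1 at h
      (repeat' (refine (look_cases h).elim (fun ⟨_, h⟩ => ?_) (fun ⟨_, h⟩ => ?_))) <;>
      first
      | (exfalso; simp at h; done)
      | (exfalso; exact look_nil h)
      | (constructor <;> linarith)
      | (left; constructor <;> linarith)
      | (right; constructor <;> linarith)
  · rintro (⟨h1, h2⟩ | ⟨h1, h2⟩)
    · left; unfold q0; (repeat (rw [look_ge (by linarith)])); rw [look_lt (by linarith)]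
    · left; unfold q0; (repeat (rw [look_ge (by linarith)])); rw [look_lt (by linarith)]

theorem run_a1 : run (I := inst) sched (ja 1) = Set.Ico (3 / 2) 2 ∪ Set.Ico (7 / 2) 4 := by
  ext t
  rw [mem_run_sched]
  constructor
  · rintro (h | h)
    · unfold q0 at h
      (repeat' (refine (look_cases h).elim (fun ⟨_, h⟩ => ?_) (fun ⟨_, h⟩ => ?_))) <;>
      first
      | (exfalso; simp at h; done)
      | (exfalso; exact look_nil h)
      | (constructor <;> linarith)
      | (left; constructor <;> linarith)
      | (right; constructor <;> linarith)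
    · unfold q1 at h
      (repeat' (refine (look_cases h).elim (fun ⟨_, h⟩ => ?_) (fun ⟨_, h⟩ => ?_))) <;>
      first
      | (exfalso; simp at h; done)
      | (exfalso; exact look_nil h)
      | (constructor <;> linarith)
      | (left; constructor <;> linarith)
      | (right; constructor <;> linarith)
  · rintro (⟨h1, h2⟩ | ⟨h1, h2⟩)
    · right; unfold q1; (repeat (rw [look_ge (by linarith)])); rw [look_lt (by linarith)]
    · left; unfold q0; (repeat (rw [look_ge (by linarith)])); rw [look_lt (by linarith)]

theorem run_c (i : Fin 2) : run (I := inst) sched (jc i) = Set.Ico 2 3 := by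
  ext t
  rw [mem_run_sched]
  fin_cases i
  · constructor
    · rintro (h | h)
      · unfold q0 at h
        (repeat' (refine (look_cases h).elim (fun ⟨_, h⟩ => ?_) (fun ⟨_, h⟩ => ?_))) <;>
        first
        | (exfalso; simp at h; done)
        | (exfalso; exact look_nil h)
        | (constructor <;> linarith)
        | (left; constructor <;> linarith)
        | (right; constructor <;> linarith)
      · unfold q1 at h
        (repeat' (refine (look_cases h).elim (fun ⟨_, h⟩ => ?_) (fun ⟨_, h⟩ => ?_))) <;>
        first
        | (exfalso; simp at h; done)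
        | (exfalso; exact look_nil h)
        | (constructor <;> linarith)
        | (left; constructor <;> linarith)
        | (right; constructor <;> linarith)
    · rintro ⟨h1, h2⟩
      left; unfold q0; (repeat (rw [look_ge (by linarith)])); rw [look_lt (by linarith)]; rfl
  · constructor
    · rintro (h | h)
      · unfold q0 at h
        (repeat' (refine (look_cases h).elim (fun ⟨_, h⟩ => ?_) (fun ⟨_, h⟩ => ?_))) <;>
        first
        | (exfalso; simp at h; done)
        | (exfalso; exact look_nil h)
        | (constructor <;> linarith)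
        | (left; constructor <;> linarith)
        | (right; constructor <;> linarith)
      · unfold q1 at h
        (repeat' (refine (look_cases h).elim (fun ⟨_, h⟩ => ?_) (fun ⟨_, h⟩ => ?_))) <;>
        first
        | (exfalso; simp at h; done)
        | (exfalso; exact look_nil h)
        | (constructor <;> linarith)
        | (left; constructor <;> linarith)
        | (right; constructor <;> linarith)
    · rintro ⟨h1, h2⟩
      right; unfold q1; (repeat (rw [look_ge (by linarith)])); rw [look_lt (by linarith)]; rfl

theorem run_h (i : Fin 8) : run (I := inst) sched (jh i) = Set.Ico (3 + i : ℝ) (4 + i) := by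
  have key : ∀ (i : Fin 8) (f f' : ℝ), f = 3 + (i : ℝ) → f' = 4 + (i : ℝ) →
      run (I := inst) sched (jh i) = Set.Ico f f' := by
    intro i f f' hf hf'
    ext t
    rw [mem_run_sched]
    fin_cases i
    all_goals
      norm_num at hf hf'
      constructor
      · rintro (h | h)
        · unfold q0 at h
          (repeat' (refine (look_cases h).elim (fun ⟨_, h⟩ => ?_) (fun ⟨_, h⟩ => ?_))) <;>
          first
          | (exfalso; simp at h; done)
          | (exfalso; exact look_nil h)
          | (constructor <;> linarith)
          | (left; constructor <;> linarith)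
          | (right; constructor <;> linarith)
        · unfold q1 at h
          (repeat' (refine (look_cases h).elim (fun ⟨_, h⟩ => ?_) (fun ⟨_, h⟩ => ?_))) <;>
          first
          | (exfalso; simp at h; done)
          | (exfalso; exact look_nil h)
          | (constructor <;> linarith)
          | (left; constructor <;> linarith)
          | (right; constructor <;> linarith)
      · rintro ⟨h1, h2⟩
        right; unfold q1; (repeat (rw [look_ge (by linarith)])); rw [look_lt (by linarith)]; rfl
  exact key i _ _ rfl rfl

/-! ### Volumes and suprema -/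

theorem vol1 {s f : ℝ} (h : f = s + 1) : volume (Set.Ico s f) = 1 := by
  rw [Real.volume_Ico, h]; simp

theorem vol2 {s f s' f' : ℝ} (h0 : s ≤ f) (h : f ≤ s') (h1 : s' ≤ f') (h2 : (f - s) + (f' - s') = 1) :
    volume (Set.Ico s f ∪ Set.Ico s' f') = 1 := by
  rw [measure_union _ measurableSet_Ico, Real.volume_Ico, Real.volume_Ico,
    ← ENNReal.ofReal_add (by linarith) (by linarith), h2]
  · simp
  · rw [Set.disjoint_left]
    rintro x ⟨_, hx⟩ ⟨hx', _⟩
    linarith

theorem sup1 {s f : ℝ} (h : s < f) : sSup (Set.Ico s f) = f := csSup_Ico h

theorem sup2 {s f s' f' : ℝ} (h0 : s < f) (h : f ≤ s') (h1 : s' < f') :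
    sSup (Set.Ico s f ∪ Set.Ico s' f') = f' := by
  rw [csSup_union bddAbove_Ico (Set.nonempty_Ico.2 h0) bddAbove_Ico (Set.nonempty_Ico.2 h1),
    csSup_Ico h0, csSup_Ico h1]
  exact sup_eq_right.2 (by linarith)

theorem C_p0 : C (I := inst) sched (jp 0) = 1 := by
  unfold C; rw [run_p0, sup1 (by norm_num)]
theorem C_p1 : C (I := inst) sched (jp 1) = 3 / 2 := by
  unfold C; rw [run_p1, sup2 (by norm_num) (by norm_num) (by norm_num)]
theorem C_p2 : C (I := inst) sched (jp 2) = 3 / 2 := by
  unfold C; rw [run_p2, sup1 (by norm_num)]
theorem C_a0 : C (I := inst) sched (ja 0) = 7 / 2 := by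
  unfold C; rw [run_a0, sup2 (by norm_num) (by norm_num) (by norm_num)]
theorem C_a1 : C (I := inst) sched (ja 1) = 4 := by
  unfold C; rw [run_a1, sup2 (by norm_num) (by norm_num) (by norm_num)]
theorem C_c (i : Fin 2) : C (I := inst) sched (jc i) = 3 := by
  unfold C; rw [run_c, sup1 (by norm_num)]
theorem C_h (i : Fin 8) : C (I := inst) sched (jh i) = 4 + i := by
  unfold C; rw [run_h, sup1 (by linarith)]

theorem cost_eq (P : Plan inst) : cost P = (C P (jp 0) + C P (jp 1) + C P (jp 2)) +
    (C P (ja 0) + C P (ja 1)) + (C P (jc 0) + C P (jc 1)) +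
    (C P (jh 0) + C P (jh 1) + C P (jh 2) + C P (jh 3) + C P (jh 4) + C P (jh 5) + C P (jh 6) +
      C P (jh 7)) := by
  unfold cost
  rw [Fintype.sum_sum_type, Fintype.sum_sum_type, Fintype.sum_sum_type]
  rw [Fin.sum_univ_three, Fin.sum_univ_two, Fin.sum_univ_two, Fin.sum_univ_eight]
  ring

theorem cost_sched : cost (I := inst) sched = 155 / 2 := by
  rw [cost_eq, C_p0, C_p1, C_p2, C_a0, C_a1, C_c, C_c, C_h, C_h, C_h, C_h, C_h, C_h, C_h, C_h]
  norm_num

theorem q_one (t : ℝ) (a : J) (h : q0 t = some a) (h' : q1 t = some a) : False := by
  unfold q0 at h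
  unfold q1 at h'
  rcases a with (i | i) | (i | i)
  · fin_cases i
    · clear h
      (repeat' (refine (look_cases h').elim (fun ⟨_, h'⟩ => ?_) (fun ⟨_, h'⟩ => ?_))) <;>
      first
      | (simp at h'; done)
      | (exact look_nil h')
    · have h1 : 1 ≤ t := by
        clear h'
        (repeat' (refine (look_cases h).elim (fun ⟨_, h⟩ => ?_) (fun ⟨_, h⟩ => ?_))) <;>
        first
        | (exfalso; simp at h; done)
        | (exfalso; exact look_nil h)
        | linarith
      have h2 : t < 1 / 2 := by
        clear h
        (repeat' (refine (look_cases h').elim (fun ⟨_, h'⟩ => ?_) (fun ⟨_, h'⟩ => ?_))) <;>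
        first
        | (exfalso; simp at h'; done)
        | (exfalso; exact look_nil h')
        | linarith
      linarith
    · clear h'
      (repeat' (refine (look_cases h).elim (fun ⟨_, h⟩ => ?_) (fun ⟨_, h⟩ => ?_))) <;>
      first
      | (simp at h; done)
      | (exact look_nil h)
  · fin_cases i
    · clear h
      (repeat' (refine (look_cases h').elim (fun ⟨_, h'⟩ => ?_) (fun ⟨_, h'⟩ => ?_))) <;>
      first
      | (simp at h'; done)
      | (exact look_nil h')
    · have h1 : 7 / 2 ≤ t := by
        clear h'
        (repeat' (refine (look_cases h).elim (fun ⟨_, h⟩ => ?_) (fun ⟨_, h⟩ => ?_))) <;>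
        first
        | (exfalso; simp at h; done)
        | (exfalso; exact look_nil h)
        | linarith
      have h2 : t < 2 := by
        clear h
        (repeat' (refine (look_cases h').elim (fun ⟨_, h'⟩ => ?_) (fun ⟨_, h'⟩ => ?_))) <;>
        first
        | (exfalso; simp at h'; done)
        | (exfalso; exact look_nil h')
        | linarith
      linarith
  · fin_cases i
    · clear h
      (repeat' (refine (look_cases h').elim (fun ⟨_, h'⟩ => ?_) (fun ⟨_, h'⟩ => ?_))) <;>
      first
      | (simp at h'; done)
      | (exact look_nil h')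
    · clear h'
      (repeat' (refine (look_cases h).elim (fun ⟨_, h⟩ => ?_) (fun ⟨_, h⟩ => ?_))) <;>
      first
      | (simp at h; done)
      | (exact look_nil h)
  · clear h'
    (repeat' (refine (look_cases h).elim (fun ⟨_, h⟩ => ?_) (fun ⟨_, h⟩ => ?_))) <;>
    first
    | (simp at h; done)
    | (exact look_nil h)

theorem feasible_sched : Feasible (I := inst) sched where
  breaks := by
    classical
    refine ⟨{0, 1 / 2, 1, 3 / 2, 2, 3, 7 / 2, 4, 5, 6, 7, 8, 9, 10, 11}, fun k s t hst h => ?_⟩
    have key : ∀ f : ℝ, f ∈ ({0, 1 / 2, 1, 3 / 2, 2, 3, 7 / 2, 4, 5, 6, 7, 8, 9, 10, 11} : Finset ℝ) →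
        (s < f ↔ t < f) := by
      intro f hf
      constructor
      · intro h1
        by_contra h2
        exact h f hf ⟨h1, not_lt.1 h2⟩
      · intro h1
        exact lt_of_le_of_lt hst h1
    fin_cases k
    · show q0 s = q0 t
      unfold q0
      refine look_congr _ fun x hx => key _ ?_
      simp only [List.mem_cons, List.not_mem_nil, or_false] at hx
      rcases hx with rfl | rfl | rfl | rfl | rfl | rfl | rfl <;> simp
    · show q1 s = q1 t
      unfold q1
      refine look_congr _ fun x hx => key _ ?_
      simp only [List.mem_cons, List.not_mem_nil, or_false] at hx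
      rcases hx with rfl | rfl | rfl | rfl | rfl | rfl | rfl | rfl | rfl | rfl | rfl | rfl | rfl <;>
        simp
  one := fun t a h => q_one t a h.1 h.2
  release := by
    rintro a t ht
    rcases a with (i | i) | (i | i)
    · have : 0 ≤ t := by
        fin_cases i
        · change t ∈ run (I := inst) sched (jp 0) at ht; rw [run_p0] at ht; exact ht.1
        · change t ∈ run (I := inst) sched (jp 1) at ht; rw [run_p1] at ht
          rcases ht with ht | ht <;> linarith [ht.1]
        · change t ∈ run (I := inst) sched (jp 2) at ht; rw [run_p2] at ht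
          linarith [ht.1]
      simpa [jrelease] using this
    · have : 0 ≤ t := by
        fin_cases i
        · change t ∈ run (I := inst) sched (ja 0) at ht; rw [run_a0] at ht
          rcases ht with ht | ht <;> linarith [ht.1]
        · change t ∈ run (I := inst) sched (ja 1) at ht; rw [run_a1] at ht
          rcases ht with ht | ht <;> linarith [ht.1]
      simpa [jrelease] using this
    · rw [run_c] at ht
      have := ht.1
      simpa [jrelease] using this
    · rw [run_h] at ht
      have h1 := ht.1
      have h2 : (0 : ℝ) ≤ i := Nat.cast_nonneg _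
      have : 0 ≤ t := by linarith
      simpa [jrelease] using this
  total := by
    intro a
    rcases a with (i | i) | (i | i)
    · fin_cases i
      · change volume (run (I := inst) sched (jp 0)) = 1; rw [run_p0]; exact vol1 (by norm_num)
      · change volume (run (I := inst) sched (jp 1)) = 1; rw [run_p1]
        exact vol2 (by norm_num) (by norm_num) (by norm_num) (by norm_num)
      · change volume (run (I := inst) sched (jp 2)) = 1; rw [run_p2]; exact vol1 (by norm_num)
    · fin_cases i
      · change volume (run (I := inst) sched (ja 0)) = 1; rw [run_a0]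
        exact vol2 (by norm_num) (by norm_num) (by norm_num) (by norm_num)
      · change volume (run (I := inst) sched (ja 1)) = 1; rw [run_a1]
        exact vol2 (by norm_num) (by norm_num) (by norm_num) (by norm_num)
    · rw [run_c]; exact vol1 (by norm_num)
    · rw [run_h]; exact vol1 (by ring)
  prec := by
    have ha : ∀ (i : Fin 2) (t : ℝ), t ∈ run (I := inst) sched (ja i) → 3 / 2 ≤ t := by
      intro i t ht
      fin_cases i
      · change t ∈ run (I := inst) sched (ja 0) at ht; rw [run_a0] at ht
        rcases ht with ht | ht <;> linarith [ht.1]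
      · change t ∈ run (I := inst) sched (ja 1) at ht; rw [run_a1] at ht
        rcases ht with ht | ht <;> linarith [ht.1]
    have hp : ∀ i : Fin 3, C (I := inst) sched (jp i) ≤ 3 / 2 := by
      intro i
      fin_cases i
      · change C (I := inst) sched (jp 0) ≤ 3 / 2; rw [C_p0]; norm_num
      · change C (I := inst) sched (jp 1) ≤ 3 / 2; rw [C_p1]
      · change C (I := inst) sched (jp 2) ≤ 3 / 2; rw [C_p2]
    rintro ((i | i) | (i | i)) ((j | j) | (j | j)) h t ht
    · exact absurd h (by simp [jprec])
    · exact (hp i).trans (ha j t ht)
    · exact absurd h (by simp [jprec])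
    · exact absurd h (by simp [jprec])
    · exact absurd h (by simp [jprec])
    · exact absurd h (by simp [jprec])
    · exact absurd h (by simp [jprec])
    · exact absurd h (by simp [jprec])
    · exact absurd h (by simp [jprec])
    · exact absurd h (by simp [jprec])
    · exact absurd h (by simp [jprec])
    · rw [C_c]
      rw [run_h] at ht
      have h1 := ht.1
      have h2 : (0 : ℝ) ≤ j := Nat.cast_nonneg _
      linarith
    · exact absurd h (by simp [jprec])
    · exact absurd h (by simp [jprec])
    · exact absurd h (by simp [jprec])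
    · rw [C_h]
      rw [run_h] at ht
      have h1 := ht.1
      have h3 : i < j := h
      have h4 : (i : ℕ) + 1 ≤ (j : ℕ) := h3
      have h2 : (i : ℝ) + 1 ≤ j := by exact_mod_cast h4
      linarith

end Pool.Agent.R567.AF
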