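import Pool.Agent.R567.AF2

set_option autoImplicit false

/-!
Every feasible schedule of the instance has cost at least `77.5`, and every schedule of cost at most
`77.5` has an A-configuration.
-/

namespace Pool.Agent.R567.AF

open MeasureTheory Finset

section Lower

variable {P : Plan inst}

theorem sorted3 (hP : Feasible P) {i j k : Fin 3} (hij : i ≠ j) (hik : i ≠ k) (hjk : j ≠ k)
    (h1 : C P (jp i) ≤ C P (jp j)) (h2 : C P (jp j) ≤ C P (jp k)) :
    3 ≤ C P (jp j) + C P (jp k) := by
  have hS := S_nonneg hP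
  have hC : ∀ a : inst.Job, 0 ≤ C P a := fun a => (hS a).trans (S_le_C hP a)
  have e1 := w_total hP (a := jp i) (hS _) h1
  have e2 := w_total hP (a := jp j) (hS _) le_rfl
  have e3 := w_total hP (a := jp k) (hS _) le_rfl
  have e4 := w_add (P := P) (jp k) (hC (jp j)) h2
  have e5 := w_le (P := P) (jp k) h2
  have e6 := capacity hP ({jp i, jp j, jp k} : Finset inst.Job) (hC (jp j))
  rw [sum_insert (by simp [hij, hik]), sum_insert (by simp [hjk]), sum_singleton] at e6
  linarith

theorem sum_p (hP : Feasible P) : 4 ≤ C P (jp 0) + C P (jp 1) + C P (jp 2) := by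
  have h0 := S_add_one_le hP (jp 0)
  have h1 := S_add_one_le hP (jp 1)
  have h2 := S_add_one_le hP (jp 2)
  have k0 := S_nonneg hP (jp 0)
  have k1 := S_nonneg hP (jp 1)
  have k2 := S_nonneg hP (jp 2)
  rcases le_total (C P (jp 0)) (C P (jp 1)) with a | a <;>
  rcases le_total (C P (jp 0)) (C P (jp 2)) with b | b <;>
  rcases le_total (C P (jp 1)) (C P (jp 2)) with c | c
  · have := sorted3 hP (by decide) (by decide) (by decide) a c; linarith
  · have := sorted3 hP (by decide) (by decide) (by decide) b c; linarith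
  · have := sorted3 hP (by decide) (by decide) (by decide) a c; linarith
  · have := sorted3 hP (by decide) (by decide) (by decide) b a; linarith
  · have := sorted3 hP (by decide) (by decide) (by decide) a b; linarith
  · have := sorted3 hP (by decide) (by decide) (by decide) b c; linarith
  · have := sorted3 hP (by decide) (by decide) (by decide) c b; linarith
  · have := sorted3 hP (by decide) (by decide) (by decide) c a; linarith

theorem S_a (hP : Feasible P) (i : Fin 2) : 3 / 2 ≤ S P (ja i) := by
  have h0 : C P (jp 0) ≤ S P (ja i) := C_le_S hP (show jprec (jp 0) (ja i) from trivial)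
  have h1 : C P (jp 1) ≤ S P (ja i) := C_le_S hP (show jprec (jp 1) (ja i) from trivial)
  have h2 : C P (jp 2) ≤ S P (ja i) := C_le_S hP (show jprec (jp 2) (ja i) from trivial)
  have hS := S_nonneg hP
  have e1 := w_total hP (a := jp 0) (hS _) h0
  have e2 := w_total hP (a := jp 1) (hS _) h1
  have e3 := w_total hP (a := jp 2) (hS _) h2
  have e6 := capacity hP ({jp 0, jp 1, jp 2} : Finset inst.Job) (hS (ja i))
  rw [sum_insert (by simp), sum_insert (by simp), sum_singleton] at e6
  linarith

theorem S_c (hP : Feasible P) (i : Fin 2) : 2 ≤ S P (jc i) := by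
  have := release_le_S hP (jc i)
  simpa [jrelease] using this

theorem C_c' (hP : Feasible P) (i : Fin 2) : 3 ≤ C P (jc i) := by
  have := S_c hP i
  have := S_add_one_le hP (jc i)
  linarith

theorem S_h0 (hP : Feasible P) (i : Fin 2) : C P (jc i) ≤ S P (jh 0) :=
  C_le_S hP (show jprec (jc i) (jh 0) from trivial)

theorem C_h_succ (hP : Feasible P) {i j : Fin 8} (h : i < j) : C P (jh i) + 1 ≤ C P (jh j) := by
  have h1 : C P (jh i) ≤ S P (jh j) := C_le_S hP (show jprec (jh i) (jh j) from h)
  have := S_add_one_le hP (jh j)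
  linarith

theorem T_ge (hP : Feasible P) : 4 ≤ C P (jh 0) := by
  have h1 := S_h0 hP 0
  have h2 := C_c' hP 0
  have h3 := S_add_one_le hP (jh 0)
  linarith

theorem sum_h (hP : Feasible P) : 8 * C P (jh 0) + 28 ≤
    C P (jh 0) + C P (jh 1) + C P (jh 2) + C P (jh 3) + C P (jh 4) + C P (jh 5) + C P (jh 6) +
      C P (jh 7) := by
  have h1 := C_h_succ hP (show (0 : Fin 8) < 1 by decide)
  have h2 := C_h_succ hP (show (1 : Fin 8) < 2 by decide)
  have h3 := C_h_succ hP (show (2 : Fin 8) < 3 by decide)
  have h4 := C_h_succ hP (show (3 : Fin 8) < 4 by decide)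
  have h5 := C_h_succ hP (show (4 : Fin 8) < 5 by decide)
  have h6 := C_h_succ hP (show (5 : Fin 8) < 6 by decide)
  have h7 := C_h_succ hP (show (6 : Fin 8) < 7 by decide)
  linarith

/-- the amount of `a_i` before time `2` -/
theorem w02 (hP : Feasible P) (i : Fin 2) : w P (ja i) 0 2 ≤ 1 / 2 := by
  have h1 := S_a hP i
  rcases le_total (S P (ja i)) 2 with h | h
  · have h2 := w_add (P := P) (ja i) (s := 0) (t := S P (ja i)) (u := 2) (by linarith) h
    rw [w_zero_of_S hP le_rfl] at h2
    have h3 := w_le (P := P) (ja i) h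
    linarith
  · rw [w_zero_of_S hP h]; norm_num

/-- the amount of the jobs `a` between the times `2` and `3` -/
theorem w23 (hP : Feasible P) : w P (ja 0) 2 3 + w P (ja 1) 2 3 ≤ 2 * (C P (jh 0) - 4) := by
  have hT := T_ge hP
  have hc : ∀ i : Fin 2, 1 - (C P (jh 0) - 4) ≤ w P (jc i) 2 3 := by
    intro i
    have h1 := S_h0 hP i
    have h2 := S_add_one_le hP (jh 0)
    have h3 := w_total hP (a := jc i) (s := 2) (t := C P (jh 0) - 1) (S_c hP i) (by linarith)
    have h4 := w_add (P := P) (jc i) (s := 2) (t := 3) (u := C P (jh 0) - 1) (by norm_num) (by linarith)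
    have h5 := w_le (P := P) (jc i) (s := 3) (t := C P (jh 0) - 1) (by linarith)
    linarith
  have h6 := capacity hP ({ja 0, ja 1, jc 0, jc 1} : Finset inst.Job) (s := 2) (t := 3) (by norm_num)
  rw [sum_insert (by simp), sum_insert (by simp), sum_insert (by simp), sum_singleton] at h6
  have h7 := hc 0
  have h8 := hc 1
  linarith

/-- the amount of `h_0` between `3` and `t` -/
theorem w3h (hP : Feasible P) {t : ℝ} (h3 : 3 ≤ t) (ht : t ≤ C P (jh 0)) :
    1 - (C P (jh 0) - t) ≤ w P (jh 0) 3 t := by
  have h1 := S_h0 hP 0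
  have h2 := C_c' hP 0
  have h4 := w_total hP (a := jh 0) (s := 3) (t := C P (jh 0)) (by linarith) le_rfl
  have h5 := w_add (P := P) (jh 0) h3 ht
  have h6 := w_le (P := P) (jh 0) ht
  linarith

/-- the amount of the jobs `a` between `3` and `t` -/
theorem w3t (hP : Feasible P) {t : ℝ} (h3 : 3 ≤ t) (ht : t ≤ C P (jh 0)) :
    w P (ja 0) 3 t + w P (ja 1) 3 t ≤ t - 3 + (C P (jh 0) - 4) := by
  have h1 := w3h hP h3 ht
  have h6 := capacity hP ({ja 0, ja 1, jh 0} : Finset inst.Job) (s := 3) (t := t) h3
  rw [sum_insert (by simp), sum_insert (by simp), sum_singleton] at h6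
  linarith

/-- the earlier one of the jobs `a` -/
theorem first_a (hP : Feasible P) (i : Fin 2) : 7 / 2 - 4 * (C P (jh 0) - 4) ≤ C P (ja i) := by
  have hT := T_ge hP
  have h0 := S_a hP i
  have h1 := S_add_one_le hP (ja i)
  have h2 := w02 hP i
  have h3 : w P (ja i) 2 3 ≤ 2 * (C P (jh 0) - 4) := by
    have h4 := w23 hP
    have h5 := w_nonneg (P := P) (ja 0) 2 3
    have h6 := w_nonneg (P := P) (ja 1) 2 3
    fin_cases i
    · change w P (ja 0) 2 3 ≤ _; linarith
    · change w P (ja 1) 2 3 ≤ _; linarith
  rcases le_total 3 (C P (ja i)) with h | h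
  · have h4 := w_total hP (a := ja i) (s := 0) (t := C P (ja i)) (by linarith) le_rfl
    have h5 := w_add (P := P) (ja i) (s := 0) (t := 2) (u := C P (ja i)) (by norm_num) (by linarith)
    have h6 := w_add (P := P) (ja i) (s := 2) (t := 3) (u := C P (ja i)) (by norm_num) (by linarith)
    have h7 := w_le (P := P) (ja i) h
    linarith
  · have h4 := w_total hP (a := ja i) (s := 0) (t := 3) (by linarith) h
    have h5 := w_add (P := P) (ja i) (s := 0) (t := 2) (u := 3) (by norm_num) (by norm_num)
    linarith

/-- the later one of the jobs `a` -/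
theorem second_a (hP : Feasible P) {x y : Fin 2} (hxy : x ≠ y) (hle : C P (ja x) ≤ C P (ja y)) :
    4 - 3 * (C P (jh 0) - 4) ≤ C P (ja y) := by
  have hT := T_ge hP
  have hx := S_a hP x
  have hy := S_a hP y
  have h1 := S_add_one_le hP (ja y)
  have s1 : ∀ f : Fin 2 → ℝ, f x + f y = f 0 + f 1 := by
    intro f
    have : ∀ x y : Fin 2, x ≠ y → f x + f y = f 0 + f 1 := by
      intro x y h
      fin_cases x <;> fin_cases y <;> simp_all [add_comm]
    exact this x y hxy
  have h2 := w02 hP x
  have h2' := w02 hP y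
  have h3 := w23 hP
  rw [← s1 fun i => w P (ja i) 2 3] at h3
  rcases le_total 3 (C P (ja y)) with h | h
  · rcases le_total (C P (jh 0)) (C P (ja y)) with h' | h'
    · linarith
    · have h4 := w_total hP (a := ja x) (s := 0) (t := C P (ja y)) (by linarith) hle
      have h4' := w_total hP (a := ja y) (s := 0) (t := C P (ja y)) (by linarith) le_rfl
      have h5 := w_add (P := P) (ja x) (s := 0) (t := 2) (u := C P (ja y)) (by norm_num) (by linarith)
      have h6 := w_add (P := P) (ja x) (s := 2) (t := 3) (u := C P (ja y)) (by norm_num) (by linarith)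
      have h5' := w_add (P := P) (ja y) (s := 0) (t := 2) (u := C P (ja y)) (by norm_num) (by linarith)
      have h6' := w_add (P := P) (ja y) (s := 2) (t := 3) (u := C P (ja y)) (by norm_num) (by linarith)
      have h7 := w3t hP h h'
      rw [← s1 fun i => w P (ja i) 3 (C P (ja y))] at h7
      linarith
  · have h4 := w_total hP (a := ja x) (s := 0) (t := 3) (by linarith) (hle.trans h)
    have h5 := w_add (P := P) (ja x) (s := 0) (t := 2) (u := 3) (by norm_num) (by norm_num)
    have h4' := w_total hP (a := ja y) (s := 0) (t := 3) (by linarith) h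
    have h5' := w_add (P := P) (ja y) (s := 0) (t := 2) (u := 3) (by norm_num) (by norm_num)
    linarith

/-- the exact lower bound -/
theorem lower (hP : Feasible P) {x y : Fin 2} (hxy : x ≠ y) :
    38 + 8 * C P (jh 0) + C P (ja x) + C P (ja y) ≤ cost P := by
  have s1 : ∀ f : Fin 2 → ℝ, f x + f y = f 0 + f 1 := by
    intro f
    have : ∀ x y : Fin 2, x ≠ y → f x + f y = f 0 + f 1 := by
      intro x y h
      fin_cases x <;> fin_cases y <;> simp_all [add_comm]
    exact this x y hxy
  have h1 := s1 fun i => C P (ja i)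
  have h2 := sum_p hP
  have h3 := sum_h hP
  have h4 := C_c' hP 0
  have h5 := C_c' hP 1
  rw [cost_eq, ← h1]
  linarith

theorem cost_ge (hP : Feasible P) : 155 / 2 ≤ cost P := by
  have key : ∀ x y : Fin 2, x ≠ y → C P (ja x) ≤ C P (ja y) → 155 / 2 ≤ cost P := by
    intro x y hxy hle
    have h1 := lower hP hxy
    have h2 := first_a hP x
    have h3 := second_a hP hxy hle
    have h4 := T_ge hP
    linarith
  rcases le_total (C P (ja 0)) (C P (ja 1)) with h | h
  · exact key 0 1 (by decide) h
  · exact key 1 0 (by decide) h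

theorem indep_of {x : Fin 2} {z : inst.Job} (h : ∀ k, z ≠ jp k) : Independent (I := inst) (ja x) z := by
  rcases z with (k | k) | (k | k)
  · exact absurd rfl (h k)
  all_goals
    constructor <;> (intro hc; exact hc.elim)

/-- A schedule of cost at most `77.5` has an A-configuration. -/
theorem config (hP : Feasible P) (hcost : cost P ≤ 155 / 2) {x y : Fin 2} (hxy : x ≠ y)
    (hle : C P (ja x) ≤ C P (ja y)) : ∃ (j j' : ℕ), AConfiguration P (ja x) (ja y) j j' (1 / 2) := by
  have h1 := lower hP hxy
  have h2 := first_a hP x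
  have h3 := second_a hP hxy hle
  have h4 := T_ge hP
  have hT : C P (jh 0) = 4 := by linarith
  have hx : C P (ja x) = 7 / 2 := by linarith
  have hy : C P (ja y) = 4 := by linarith
  have s1 : ∀ f : Fin 2 → ℝ, f x + f y = f 0 + f 1 := by
    intro f
    have : ∀ x y : Fin 2, x ≠ y → f x + f y = f 0 + f 1 := by
      intro x y h
      fin_cases x <;> fin_cases y <;> simp_all [add_comm]
    exact this x y hxy
  have Sx := S_a hP x
  have Sy := S_a hP y
  have x02 := w02 hP x
  have y02 := w02 hP y
  have b23 := w23 hP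
  rw [← s1 fun i => w P (ja i) 2 3, hT] at b23
  have nx := w_nonneg (P := P) (ja x) 2 3
  have ny := w_nonneg (P := P) (ja y) 2 3
  have x23 : w P (ja x) 2 3 = 0 := by linarith
  have y23 : w P (ja y) 2 3 = 0 := by linarith
  -- the job `x`
  have x1 := w_total hP (a := ja x) (s := 0) (t := 7 / 2) (by linarith) hx.le
  have x2 := w_add (P := P) (ja x) (s := 0) (t := 2) (u := 7 / 2) (by norm_num) (by norm_num)
  have x3 := w_add (P := P) (ja x) (s := 2) (t := 3) (u := 7 / 2) (by norm_num) (by norm_num)
  have x4 := w_le (P := P) (ja x) (s := 3) (t := 7 / 2) (by norm_num)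
  have x5 : w P (ja x) 3 (7 / 2) = 7 / 2 - 3 := by linarith
  have x6 : w P (ja x) 0 2 = 1 / 2 := by linarith
  -- the job `y`
  have h0 := w3h hP (t := 7 / 2) (by norm_num) (by rw [hT]; norm_num)
  rw [hT] at h0
  have cap := capacity hP ({ja x, ja y, jh 0} : Finset inst.Job) (s := 3) (t := 7 / 2) (by norm_num)
  rw [sum_insert (by simp [hxy]), sum_insert (by simp), sum_singleton] at cap
  have y0 := w_nonneg (P := P) (ja y) 3 (7 / 2)
  have y335 : w P (ja y) 3 (7 / 2) = 0 := by linarith
  have y1 := w_total hP (a := ja y) (s := 0) (t := 4) (by linarith) hy.le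
  have y2 := w_add (P := P) (ja y) (s := 0) (t := 2) (u := 4) (by norm_num) (by norm_num)
  have y3 := w_add (P := P) (ja y) (s := 2) (t := 3) (u := 4) (by norm_num) (by norm_num)
  have y4 := w_add (P := P) (ja y) (s := 3) (t := 7 / 2) (u := 4) (by norm_num) (by norm_num)
  have y5 := w_le (P := P) (ja y) (s := 7 / 2) (t := 4) (by norm_num)
  have y6 : w P (ja y) (7 / 2) 4 = 4 - 7 / 2 := by linarith
  have y7 : w P (ja y) 0 2 = 1 / 2 := by linarith
  have Sy2 : S P (ja y) < 2 := by
    by_contra hcon
    push Not at hcon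
    rw [w_zero_of_S hP hcon] at y7
    norm_num at y7
  have Sx2 : S P (ja x) < 2 := by
    by_contra hcon
    push Not at hcon
    rw [w_zero_of_S hP hcon] at x6
    norm_num at x6
  obtain ⟨j, j1, jq, ej⟩ := exists_index P (C_mem_events P (ja x))
  obtain ⟨j', j1', jq', ej'⟩ := exists_index P (C_mem_events P (ja y))
  rw [hx] at ej
  rw [hy] at ej'
  have hjj : j < j' := by
    by_contra hcon
    push Not at hcon
    rcases hcon.lt_or_eq with h | h
    · have := e_lt P j1' h jq
      rw [ej, ej'] at this
      norm_num at this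
    · rw [h, ej] at ej'
      norm_num at ej'
  refine ⟨j, j', ?_⟩
  constructor
  · norm_num
  · exact ⟨j1, hjj, jq'⟩
  · exact ⟨hx.trans ej.symm, hy.trans ej'.symm⟩
  · rw [ej]
    have := full_of_w hP x5
    norm_num
    exact this
  · rw [ej]
    intro s t hs ht hst
    norm_num at hs
    constructor
    · by_contra hne
      have hs' : s < 3 := lt_of_le_of_ne hs (by intro h; apply hne; rw [h]; norm_num)
      have hd := empty_of_w hP x23
      have hmem : max s 2 ∈ Set.Ico (2 : ℝ) 3 := ⟨le_max_right _ _, max_lt hs' (by norm_num)⟩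
      refine Set.disjoint_left.1 hd hmem (hst ⟨le_max_left _ _, ?_⟩)
      exact (max_lt hs' (by norm_num : (2 : ℝ) < 3)).trans (by linarith)
    · by_contra hne
      have ht' : 7 / 2 < t := lt_of_le_of_ne ht (Ne.symm hne)
      have := lt_C hP (hst ⟨by linarith, ht'⟩ : (7 / 2 : ℝ) ∈ run P (ja x))
      rw [hx] at this
      exact absurd this (lt_irrefl _)
  · rw [ej, ej']
    exact full_of_w hP y6
  · rw [ej]
    have := empty_of_w hP y335
    norm_num
    exact this
  · rw [ej]
    linarith
  · intro i hji hij' hiq z hz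
    refine indep_of ?_
    rintro k rfl
    refine hz (xi_zero_of_C hP ?_)
    have k1 : C P (jp k) ≤ S P (ja x) := C_le_S hP (show jprec (jp k) (ja x) from trivial)
    have k2 : e P j ≤ e P i := by
      rcases hji.lt_or_eq with h | h
      · exact (e_lt P j1 h (by omega)).le
      · rw [h]
    rw [ej] at k2
    linarith

theorem not_AFree (hP : Feasible P) (hcost : cost P ≤ 155 / 2) : ¬ AFree P := by
  intro h
  apply h
  rcases le_total (C P (ja 0)) (C P (ja 1)) with h | h
  · obtain ⟨j, j', h⟩ := config hP hcost (by decide) h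
    exact ⟨_, _, _, _, _, h⟩
  · obtain ⟨j, j', h⟩ := config hP hcost (by decide) h
    exact ⟨_, _, _, _, _, h⟩

end Lower

theorem optimal_sched : Optimal (I := inst) sched :=
  ⟨feasible_sched, fun Q hQ => by rw [cost_sched]; exact cost_ge hQ⟩

/-- For the instance with 15 jobs there are maximal schedules, and none of them is A-free. -/
theorem main : (∃ P : Plan inst, Maximal P) ∧ ∀ P : Plan inst, Maximal P → ¬ AFree P := by
  refine ⟨exists_maximal ⟨_, optimal_sched⟩, fun P hP => ?_⟩
  have h1 := optimal_of_maximal ⟨_, optimal_sched⟩ hP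
  refine not_AFree h1.1 ?_
  rw [← cost_sched]
  exact h1.2 _ feasible_sched

end Pool.Agent.R567.AF
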