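import Pool.Agent.NPC.Num

set_option autoImplicit false

/-! From programs to Turing machines, and counting functions with prescribed fibres. -/

namespace Pool.Agent.R567.GT

open Pool.Agent.NPC Turing Finset

/-- A function computed by a program in polynomial time (`Poly`) is computed in polynomial time by a
Turing machine in the sense of Mathlib. -/
theorem toTM {α β : Type} {ea : α → List Bool} {eb : β → List Bool} {f : α → β}
    (h : PC ea eb f) : Nonempty (TM2ComputableInPolyTime ea eb f) := by
  obtain ⟨c, p, h⟩ := h
  have key : ∀ x : α, ∃ t, t ≤ p.eval (ea x).length + 1 ∧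
      Nonempty (TM2OutputsInTime (c.map (Fin.ofNat (c.bd + 1))).toTM (ea x) (some (eb (f x))) t) := by
    intro x
    obtain ⟨t, ht, hr⟩ := h x
    have h1 := hr.restrict (n := c.bd) (by omega)
    refine ⟨t + 1, by simpa using ht, toTM_outputs ?_⟩
    convert! h1 using 1
    · funext i
      by_cases hi : i = 0
      · subst hi; simp [inp]
      · have : (i : ℕ) ≠ 0 := fun h => hi (Fin.ext h)
        simp [inp, hi, this]
    · funext i
      by_cases hi : i = 0
      · subst hi; simp [inp]
      · have : (i : ℕ) ≠ 0 := fun h => hi (Fin.ext h)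
        simp [inp, hi, this]
  refine ⟨{ tm := (c.map (Fin.ofNat (c.bd + 1))).toTM
            inputAlphabet := Equiv.refl Bool
            outputAlphabet := Equiv.refl Bool
            time := p + 1
            outputsFun := ?_ }⟩
  intro x
  have hx := key x
  have ht := hx.choose_spec.1
  have hm := hx.choose_spec.2.some
  refine outputs_conv (List.map_id (ea x)).symm (List.map_id (eb (f x))).symm (ht.trans ?_) hm
  simp

/-- The number of functions with prescribed fibre sizes, times the product of the factorials of these
sizes, is at most the factorial of the number of arguments. -/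
theorem fibres {κ ι : Type} [Fintype κ] [DecidableEq κ] [Fintype ι] [DecidableEq ι] (m : ι → ℕ) :
    (univ.filter fun f : κ → ι => ∀ i, (univ.filter fun k => f k = i).card = m i).card *
      ∏ i, (m i).factorial ≤ (Fintype.card κ).factorial := by
  classical
  set F := univ.filter fun f : κ → ι => ∀ i, (univ.filter fun k => f k = i).card = m i with hF
  rcases F.eq_empty_or_nonempty with h | ⟨f₀, hf₀⟩
  · rw [h]; simp
  have h0 : ∀ i, (univ.filter fun k => f₀ k = i).card = m i := (mem_filter.1 hf₀).2
  -- every `f` in `F` is `f₀ ∘ σ`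
  have hex : ∀ f ∈ F, ∃ σ : Equiv.Perm κ, f₀ ∘ σ = f := by
    intro f hf
    have h1 : ∀ i, (univ.filter fun k => f k = i).card = m i := (mem_filter.1 hf).2
    have e : ∀ i, Nonempty ({k // f k = i} ≃ {k // f₀ k = i}) := by
      intro i
      apply Fintype.card_eq.1
      rw [Fintype.card_subtype, Fintype.card_subtype, h1, h0]
    have e' : ∀ i, ({k // f k = i} ≃ {k // f₀ k = i}) := fun i => (e i).some
    let σ : Equiv.Perm κ :=
      (Equiv.sigmaFiberEquiv f).symm.trans ((Equiv.sigmaCongrRight e').trans
        (Equiv.sigmaFiberEquiv f₀))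
    refine ⟨σ, ?_⟩
    funext k
    simp only [Function.comp, σ, Equiv.trans_apply, Equiv.sigmaFiberEquiv,
      Equiv.coe_fn_symm_mk, Equiv.sigmaCongrRight_apply, Equiv.coe_fn_mk, Sigma.map]
    exact (e' (f k) ⟨k, rfl⟩).2
  have hcard : ∀ f ∈ F, (univ.filter fun σ : Equiv.Perm κ => f₀ ∘ σ = f).card =
      ∏ i, (m i).factorial := by
    intro f hf
    obtain ⟨σ₀, hσ₀⟩ := hex f hf
    have h2 := DomMulAct.stabilizer_card f₀
    have h3 : ∏ i, (Fintype.card {a // f₀ a = i}).factorial = ∏ i, (m i).factorial := by
      refine prod_congr rfl fun i _ => ?_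
      rw [Fintype.card_subtype, h0]
    rw [← h3, ← h2, Fintype.card_subtype]
    refine card_bij' (fun σ _ => σ * σ₀⁻¹) (fun σ _ => σ * σ₀) ?_ ?_ ?_ ?_
    · intro σ hσ
      simp only [mem_filter, mem_univ, true_and] at hσ ⊢
      funext k
      have h4 := congrFun hσ (σ₀⁻¹ k)
      have h5 := congrFun hσ₀ (σ₀⁻¹ k)
      have h6 : σ₀ (σ₀⁻¹ k) = k := σ₀.apply_symm_apply k
      simp only [Function.comp, Equiv.Perm.mul_apply] at h4 h5 ⊢
      rw [h6] at h5
      rw [h4, h5]
    · intro σ hσ
      simp only [mem_filter, mem_univ, true_and] at hσ ⊢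
      funext k
      have h4 := congrFun hσ (σ₀ k)
      have h5 := congrFun hσ₀ k
      simp only [Function.comp, Equiv.Perm.mul_apply] at h4 h5 ⊢
      rw [h4, h5]
    · intro σ _; simp
    · intro σ _; simp
  calc F.card * ∏ i, (m i).factorial = ∑ f ∈ F, ∏ i, (m i).factorial := by
        rw [sum_const, smul_eq_mul]
    _ = ∑ f ∈ F, (univ.filter fun σ : Equiv.Perm κ => f₀ ∘ σ = f).card :=
        sum_congr rfl fun f hf => (hcard f hf).symm
    _ = (F.biUnion fun f => univ.filter fun σ : Equiv.Perm κ => f₀ ∘ σ = f).card := by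
        rw [card_biUnion]
        intro f _ g _ hfg
        rw [Function.onFun, disjoint_left]
        intro σ h1 h2
        simp only [mem_filter, mem_univ, true_and] at h1 h2
        exact hfg (h1.symm.trans h2)
    _ ≤ (univ : Finset (Equiv.Perm κ)).card := card_le_card (subset_univ _)
    _ = (Fintype.card κ).factorial := by rw [card_univ, Fintype.card_perm]

end Pool.Agent.R567.GT
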