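import Pool.Agent.R567.GT1

set_option autoImplicit false

/-! Mixtures of finitely many marginals and the Laplace estimator. -/

namespace Pool.Agent.R567.GT

open Pool.Agent.NPC Finset

/-- time-consistent families of nonnegative numbers with total mass one -/
structure IsOnline {d : ℕ} (r : List (Fin d) → ℚ) : Prop where
  nonneg : ∀ x, 0 ≤ r x
  empty : r [] = 1
  consistent : ∀ x, r x = ∑ a : Fin d, r (x ++ [a])

/-- marginals -/
def marg {d : ℕ} (R : List (Fin d) → ℚ) : ℕ → List (Fin d) → ℚ
  | 0, x => R x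
  | k + 1, x => ∑ a : Fin d, marg R k (x ++ [a])

/-- the Laplace estimator -/
def lap {d : ℕ} (x : List (Fin d)) : ℚ :=
  (((d - 1).factorial * ∏ i : Fin d, (x.count i).factorial : ℕ) : ℚ) /
    ((x.length + (d - 1)).factorial : ℕ)

theorem lap_pos {d : ℕ} (x : List (Fin d)) : 0 < lap x := by
  unfold lap
  have h1 : 0 < ((d - 1).factorial * ∏ i : Fin d, (x.count i).factorial : ℕ) :=
    Nat.mul_pos (Nat.factorial_pos _) (prod_pos fun i _ => Nat.factorial_pos _)
  have h2 := Nat.factorial_pos (x.length + (d - 1))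
  have h3 : (0 : ℚ) < (((d - 1).factorial * ∏ i : Fin d, (x.count i).factorial : ℕ) : ℚ) := by
    exact_mod_cast h1
  have h4 : (0 : ℚ) < ((x.length + (d - 1)).factorial : ℕ) := by exact_mod_cast h2
  exact div_pos h3 h4

theorem lap_nil {d : ℕ} : lap ([] : List (Fin d)) = 1 := by
  unfold lap
  have h2 := Nat.factorial_pos (d - 1)
  simp only [List.count_nil, Nat.factorial_zero, prod_const_one, mul_one, List.length_nil, zero_add]
  exact div_self (by exact_mod_cast h2.ne')

theorem sum_count {d : ℕ} (x : List (Fin d)) : ∑ i : Fin d, x.count i = x.length := by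
  induction x with
  | nil => simp
  | cons a l ih =>
    simp only [List.count_cons, sum_add_distrib, ih, List.length_cons]
    simp

theorem lap_cons {d : ℕ} (hd : 1 ≤ d) (x : List (Fin d)) :
    lap x = ∑ a : Fin d, lap (x ++ [a]) := by
  have hterm : ∀ a : Fin d, lap (x ++ [a]) =
      lap x * ((x.count a + 1 : ℕ) : ℚ) / ((x.length + d : ℕ) : ℚ) := by
    intro a
    have hp : ∏ i : Fin d, ((x ++ [a]).count i).factorial =
        (x.count a + 1) * ∏ i : Fin d, (x.count i).factorial := by
      have e1 : ∀ i : Fin d, ((x ++ [a]).count i).factorial =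
          (if i = a then x.count a + 1 else 1) * (x.count i).factorial := by
        intro i
        by_cases h : i = a
        · subst h
          simp [Nat.factorial_succ]
        · have : List.count i [a] = 0 := by
            rw [List.count_eq_zero]; simpa using h
          simp [h, this]
      rw [prod_congr rfl fun i _ => e1 i, prod_mul_distrib]
      simp
    have hl : ((x ++ [a]).length + (d - 1)).factorial =
        (x.length + d) * (x.length + (d - 1)).factorial := by
      have : (x ++ [a]).length + (d - 1) = (x.length + (d - 1)) + 1 := by simp; omega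
      rw [this, Nat.factorial_succ]
      congr 1
      omega
    unfold lap
    rw [hp, hl]
    have h2 : ((x.length + (d - 1)).factorial : ℚ) ≠ 0 := by
      exact_mod_cast (Nat.factorial_pos _).ne'
    have h3 : ((x.length + d : ℕ) : ℚ) ≠ 0 := by
      have : 0 < x.length + d := by omega
      exact_mod_cast this.ne'
    push_cast at h3 ⊢
    field_simp
  have h3 : ((x.length + d : ℕ) : ℚ) ≠ 0 := by
    have : 0 < x.length + d := by omega
    exact_mod_cast this.ne'
  rw [sum_congr rfl fun a _ => hterm a, ← sum_div, ← mul_sum, eq_div_iff h3]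
  congr 1
  have := sum_count x
  have h5 : ∑ a : Fin d, (x.count a + 1) = x.length + d := by
    rw [sum_add_distrib, this]; simp
  rw [← h5]
  push_cast
  rfl

variable {d : ℕ}

theorem marg_nonneg {q : List (Fin d) → ℚ} (h : ∀ x, 0 ≤ q x) (k : ℕ) (x : List (Fin d)) :
    0 ≤ marg q k x := by
  induction k generalizing x with
  | zero => exact h x
  | succ k ih => exact sum_nonneg fun a _ => ih _

/-- the extension of the `s`-th member of an offline family to an online family -/
def ext (q : List (Fin d) → ℚ) (s : ℕ) (x : List (Fin d)) : ℚ :=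
  if x.length < s then marg q (s - x.length) x else q (x.take s) * (lap x / lap (x.take s))

theorem ext_nonneg {q : List (Fin d) → ℚ} (h : ∀ x, 0 ≤ q x) (s : ℕ) (x : List (Fin d)) :
    0 ≤ ext q s x := by
  unfold ext
  split_ifs
  · exact marg_nonneg h _ _
  · exact mul_nonneg (h _) (div_nonneg (lap_pos _).le (lap_pos _).le)

theorem ext_self {q : List (Fin d) → ℚ} (x : List (Fin d)) : ext q x.length x = q x := by
  unfold ext
  rw [if_neg (lt_irrefl _), List.take_length, div_self (lap_pos x).ne', mul_one]

theorem ext_nil (q : List (Fin d) → ℚ) (s : ℕ) : ext q s [] = marg q s [] := by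
  unfold ext
  by_cases h : 0 < s
  · simp [h]
  · have : s = 0 := by omega
    subst this
    simp [marg, div_self (lap_pos ([] : List (Fin d))).ne']

theorem ext_cons (hd : 1 ≤ d) (q : List (Fin d) → ℚ) (s : ℕ) (x : List (Fin d)) :
    ext q s x = ∑ a : Fin d, ext q s (x ++ [a]) := by
  by_cases h : x.length < s
  · obtain ⟨k, hk⟩ : ∃ k, s - x.length = k + 1 := ⟨s - x.length - 1, by omega⟩
    have e1 : ext q s x = ∑ a : Fin d, marg q k (x ++ [a]) := by
      unfold ext
      rw [if_pos h, hk]
      rfl
    rw [e1]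
    refine sum_congr rfl fun a _ => ?_
    unfold ext
    have hl : (x ++ [a]).length = x.length + 1 := by simp
    by_cases h' : (x ++ [a]).length < s
    · rw [if_pos h']
      congr 1
      omega
    · rw [if_neg h']
      have hk0 : k = 0 := by omega
      have hs : s = (x ++ [a]).length := by omega
      subst hk0
      rw [hs, List.take_length, div_self (lap_pos _).ne', mul_one]
      rfl
  · have e1 : ext q s x = q (x.take s) * (lap x / lap (x.take s)) := by
      unfold ext; rw [if_neg h]
    have e2 : ∀ a : Fin d, ext q s (x ++ [a]) =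
        q (x.take s) * (lap (x ++ [a]) / lap (x.take s)) := by
      intro a
      unfold ext
      have hl : (x ++ [a]).length = x.length + 1 := by simp
      rw [if_neg (by omega), List.take_append_of_le_length (by omega)]
    rw [e1, sum_congr rfl fun a _ => e2 a, ← mul_sum, ← sum_div, ← lap_cons hd]

theorem ext_ratio (q : List (Fin d) → ℚ) {s N : ℕ} (hs : s < N) {x : List (Fin d)}
    (hx : N ≤ x.length) : ext q s x / lap x = ext q s (x.take N) / lap (x.take N) := by
  have hl : (x.take N).length = N := by simp [hx]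
  unfold ext
  rw [if_neg (by omega), if_neg (by omega), List.take_take, min_eq_left hs.le]
  have h1 := (lap_pos x).ne'
  have h2 := (lap_pos (x.take N)).ne'
  field_simp

/-- the mixture -/
def mix (q : List (Fin d) → ℚ) (N : ℕ) (x : List (Fin d)) : ℚ :=
  ∑ s ∈ range N, ext q s x / (((s + 1) * (s + 2) : ℕ) : ℚ) +
    (1 - ∑ s ∈ range N, marg q s [] / (((s + 1) * (s + 2) : ℕ) : ℚ)) * lap x

theorem sum_weights (N : ℕ) :
    ∑ s ∈ range N, (1 : ℚ) / (((s + 1) * (s + 2) : ℕ) : ℚ) = 1 - 1 / ((N : ℚ) + 1) := by
  induction N with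
  | zero => simp
  | succ N ih =>
    rw [sum_range_succ, ih]
    have h1 : ((N : ℚ) + 1) ≠ 0 := by positivity
    have h2 : ((N : ℚ) + 2) ≠ 0 := by positivity
    have h3 : ((N : ℚ) + 1 + 1) ≠ 0 := by positivity
    push_cast
    field_simp
    ring

theorem weight_left {q : List (Fin d) → ℚ} (h1 : ∀ s, marg q s [] ≤ 1) (N : ℕ) :
    1 / ((N : ℚ) + 1) ≤ 1 - ∑ s ∈ range N, marg q s [] / (((s + 1) * (s + 2) : ℕ) : ℚ) := by
  have h2 : ∑ s ∈ range N, marg q s [] / (((s + 1) * (s + 2) : ℕ) : ℚ) ≤
      ∑ s ∈ range N, (1 : ℚ) / (((s + 1) * (s + 2) : ℕ) : ℚ) := by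
    refine sum_le_sum fun s _ => ?_
    exact div_le_div_of_nonneg_right (h1 s) (by positivity)
  rw [sum_weights] at h2
  linarith

theorem mix_online (hd : 1 ≤ d) {q : List (Fin d) → ℚ} (h0 : ∀ x, 0 ≤ q x)
    (h1 : ∀ s, marg q s [] ≤ 1) (N : ℕ) : IsOnline (mix q N) := by
  have hw : 0 ≤ 1 - ∑ s ∈ range N, marg q s [] / (((s + 1) * (s + 2) : ℕ) : ℚ) :=
    le_trans (by positivity) (weight_left h1 N)
  refine ⟨fun x => ?_, ?_, fun x => ?_⟩
  · exact add_nonneg (sum_nonneg fun s _ => div_nonneg (ext_nonneg h0 _ _) (by positivity))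
      (mul_nonneg hw (lap_pos x).le)
  · unfold mix
    rw [lap_nil, sum_congr rfl fun s _ => by rw [ext_nil]]
    ring
  · unfold mix
    rw [sum_add_distrib, ← mul_sum, ← lap_cons hd, sum_comm]
    congr 1
    refine sum_congr rfl fun s _ => ?_
    rw [← sum_div, ← ext_cons hd]

theorem mix_pos {q : List (Fin d) → ℚ} (h0 : ∀ x, 0 ≤ q x)
    (h1 : ∀ s, marg q s [] ≤ 1) (N : ℕ) (x : List (Fin d)) : 0 < mix q N x := by
  have hw : 0 < 1 - ∑ s ∈ range N, marg q s [] / (((s + 1) * (s + 2) : ℕ) : ℚ) :=
    lt_of_lt_of_le (by positivity) (weight_left h1 N)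
  exact add_pos_of_nonneg_of_pos
    (sum_nonneg fun s _ => div_nonneg (ext_nonneg h0 _ _) (by positivity))
    (mul_pos hw (lap_pos x))

theorem mix_lower {q : List (Fin d) → ℚ} (h0 : ∀ x, 0 ≤ q x)
    (h1 : ∀ s, marg q s [] ≤ 1) (K : ℕ) (hK : ∀ x, q x ≤ K * lap x) (x : List (Fin d)) :
    q x ≤ ((x.length : ℚ) + 2) ^ 2 * mix q K x := by
  have hw := weight_left h1 K
  have hw0 : 0 ≤ 1 - ∑ s ∈ range K, marg q s [] / (((s + 1) * (s + 2) : ℕ) : ℚ) :=
    le_trans (by positivity) hw
  by_cases h : x.length < K
  · have h2 : ext q x.length x / (((x.length + 1) * (x.length + 2) : ℕ) : ℚ) ≤ mix q K x := by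
      have h3 := single_le_sum (f := fun s => ext q s x / (((s + 1) * (s + 2) : ℕ) : ℚ))
        (fun s _ => div_nonneg (ext_nonneg h0 s x) (by positivity)) (mem_range.2 h)
      have h4 := mul_nonneg hw0 (lap_pos x).le
      unfold mix
      linarith
    rw [ext_self] at h2
    have h5 : (0 : ℚ) < (((x.length + 1) * (x.length + 2) : ℕ) : ℚ) := by positivity
    rw [div_le_iff₀ h5] at h2
    refine h2.trans ?_
    rw [mul_comm]
    refine mul_le_mul_of_nonneg_right ?_ (mix_pos h0 h1 K x).le
    push_cast
    nlinarith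
  · push Not at h
    have h2 : 1 / ((K : ℚ) + 1) * lap x ≤ mix q K x := by
      have h3 := sum_nonneg (s := range K) (f := fun s => ext q s x / (((s + 1) * (s + 2) : ℕ) : ℚ))
        (fun s _ => div_nonneg (ext_nonneg h0 s x) (by positivity))
      have h4 := mul_le_mul_of_nonneg_right hw (lap_pos x).le
      unfold mix
      linarith
    have h6 : (K : ℚ) ≤ x.length := by exact_mod_cast h
    have h7 : lap x ≤ ((K : ℚ) + 1) * mix q K x := by
      rw [div_mul_eq_mul_div, one_mul, div_le_iff₀ (by positivity)] at h2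
      linarith
    have h8 := mix_pos h0 h1 K x
    have hK0 : (0 : ℚ) ≤ K := Nat.cast_nonneg K
    calc q x ≤ K * lap x := hK x
      _ ≤ K * (((K : ℚ) + 1) * mix q K x) := mul_le_mul_of_nonneg_left h7 hK0
      _ = (K * ((K : ℚ) + 1)) * mix q K x := by ring
      _ ≤ ((x.length : ℚ) + 2) ^ 2 * mix q K x := by
          refine mul_le_mul_of_nonneg_right ?_ h8.le
          nlinarith

theorem mix_ratio (q : List (Fin d) → ℚ) (N : ℕ) (x : List (Fin d)) :
    mix q N x = lap x * (mix q N (x.take N) / lap (x.take N)) := by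
  have h1 := (lap_pos x).ne'
  have h2 := (lap_pos (x.take N)).ne'
  by_cases h : x.length ≤ N
  · rw [List.take_of_length_le h]
    field_simp
  · push Not at h
    have key : mix q N x / lap x = mix q N (x.take N) / lap (x.take N) := by
      unfold mix
      rw [add_div, add_div, mul_div_assoc, div_self h1, mul_div_assoc, div_self h2, sum_div,
        sum_div]
      congr 1
      refine sum_congr rfl fun s hs => ?_
      rw [div_right_comm, ext_ratio q (mem_range.1 hs) h.le, div_right_comm]
    rw [← key]
    field_simp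

theorem marg_eq (R : List (Fin d) → ℚ) (k : ℕ) (x : List (Fin d)) :
    marg R k x = ∑ f : Fin k → Fin d, R (x ++ List.ofFn f) := by
  induction k generalizing x with
  | zero => simp [marg]
  | succ k ih =>
    have e : marg R (k + 1) x = ∑ a : Fin d, ∑ f : Fin k → Fin d, R (x ++ [a] ++ List.ofFn f) := by
      change ∑ a : Fin d, marg R k (x ++ [a]) = _
      exact sum_congr rfl fun a _ => ih _
    rw [e, ← Fintype.sum_prod_type']
    refine Fintype.sum_equiv (Fin.consEquiv (fun _ : Fin (k + 1) => Fin d)) _ _ ?_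
    rintro ⟨a, f⟩
    simp [Fin.consEquiv, List.ofFn_succ]

end Pool.Agent.R567.GT
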