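import Pool.Agent.R567.GT2

set_option autoImplicit false

/-! The triple uniform estimator. -/

namespace Pool.Agent.R567.GT

open Pool.Agent.NPC Finset

/-- `m_r`: the number of symbols which occur exactly `r` times in `x` -/
def mult {d : ℕ} (x : List (Fin d)) (r : ℕ) : ℕ :=
  (univ.filter fun i : Fin d => x.count i = r).card

/-- the number of partitions of `n` into at most `d` parts -/
def partsAtMost (d n : ℕ) : ℕ := (univ.filter fun p : Nat.Partition n => p.parts.card ≤ d).card

/-- The triple uniform estimator `q_n(x) = 1 / (binom(n; n_1, …, n_d) binom(d; m_0, …, m_n) Part(n))`,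
`n` the length of `x`, `n_i` the number of occurrences of the symbol `i`, `m_r` the number of symbols
with `r` occurrences, `Part(n)` the number of partitions of `n`. -/
def tripleUniform {d : ℕ} (x : List (Fin d)) : ℚ :=
  ((Nat.multinomial univ fun i : Fin d => x.count i : ℕ) : ℚ)⁻¹ *
    ((Nat.multinomial (range (x.length + 1)) (mult x) : ℕ) : ℚ)⁻¹ *
    ((Fintype.card (Nat.Partition x.length) : ℕ) : ℚ)⁻¹

/-- The normalized triple uniform estimator: the same with the number of partitions of `n` into at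
most `d` parts (the possible types of strings over `d` symbols) instead of `Part(n)`. -/
def tripleUniformNormalized {d : ℕ} (x : List (Fin d)) : ℚ :=
  ((Nat.multinomial univ fun i : Fin d => x.count i : ℕ) : ℚ)⁻¹ *
    ((Nat.multinomial (range (x.length + 1)) (mult x) : ℕ) : ℚ)⁻¹ *
    ((partsAtMost d x.length : ℕ) : ℚ)⁻¹

variable {d n : ℕ}

/-- the counts of a word -/
def cf (f : Fin n → Fin d) : Fin d → Fin (n + 1) := fun i =>
  ⟨(univ.filter fun k => f k = i).card, by
    have := card_le_card (filter_subset (fun k => f k = i) (univ : Finset (Fin n)))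
    rw [card_univ, Fintype.card_fin] at this
    omega⟩

theorem count_ofFn (f : Fin n → Fin d) (i : Fin d) :
    (List.ofFn f).count i = (cf f i : ℕ) := by
  change _ = (univ.filter fun k => f k = i).card
  rw [List.ofFn_eq_map, List.count_eq_countP, List.countP_map, List.countP_eq_length_filter]
  have h : (univ.filter fun k => f k = i) =
      ((List.finRange n).filter ((fun x => x == i) ∘ f)).toFinset := by
    ext k
    simp
  rw [h, List.toFinset_card_of_nodup ((List.nodup_finRange n).filter _)]

theorem sum_cf (f : Fin n → Fin d) : ∑ i, (cf f i : ℕ) = n := by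
  have := sum_count (List.ofFn f)
  simp only [count_ofFn, List.length_ofFn] at this
  exact this

/-- the multinomial coefficient of a vector of counts -/
def Wc (c : Fin d → Fin (n + 1)) : ℕ := Nat.multinomial univ fun i => (c i : ℕ)

/-- the profile of a vector of counts -/
def pr (c : Fin d → Fin (n + 1)) (r : ℕ) : ℕ := (univ.filter fun i => (c i : ℕ) = r).card

/-- the multinomial coefficient of the profile -/
def Mc (c : Fin d → Fin (n + 1)) : ℕ := Nat.multinomial (range (n + 1)) (pr c)

/-- vectors of counts with sum `n` -/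
def SS (d n : ℕ) : Finset (Fin d → Fin (n + 1)) := univ.filter fun c => ∑ i, (c i : ℕ) = n

theorem card_fiber {c : Fin d → Fin (n + 1)} (hc : c ∈ SS d n) :
    (univ.filter fun f : Fin n → Fin d => cf f = c).card ≤ Wc c := by
  have h1 : (univ.filter fun f : Fin n → Fin d => cf f = c).card * ∏ i, ((c i : ℕ)).factorial ≤
      (Fintype.card (Fin n)).factorial := by
    refine le_trans (Nat.mul_le_mul_right _ (card_le_card ?_))
      (fibres (κ := Fin n) (ι := Fin d) (fun i => (c i : ℕ)))
    intro f hf
    simp only [mem_filter, mem_univ, true_and] at hf ⊢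
    intro i
    rw [← hf]
    rfl
  rw [Fintype.card_fin] at h1
  have h3 := Nat.multinomial_spec (univ : Finset (Fin d)) (fun i => (c i : ℕ))
  have h4 : ∑ i, (c i : ℕ) = n := (mem_filter.1 hc).2
  rw [h4] at h3
  have h5 : 0 < ∏ i : Fin d, ((c i : ℕ)).factorial := prod_pos fun i _ => Nat.factorial_pos _
  rw [← h3, mul_comm] at h1
  exact Nat.le_of_mul_le_mul_left h1 h5

theorem Wc_pos (c : Fin d → Fin (n + 1)) : 0 < Wc c := Nat.multinomial_pos _ _

theorem Mc_pos (c : Fin d → Fin (n + 1)) : 0 < Mc c := Nat.multinomial_pos _ _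

theorem sum_words_le (G : (Fin d → Fin (n + 1)) → ℚ) (hG : ∀ c, 0 ≤ G c) :
    ∑ f : Fin n → Fin d, G (cf f) / (Wc (cf f) : ℚ) ≤ ∑ c ∈ SS d n, G c := by
  rw [← sum_fiberwise_of_maps_to (s := (univ : Finset (Fin n → Fin d))) (t := SS d n) (g := cf)
    (fun f _ => by simp only [SS, mem_filter, mem_univ, true_and]; exact sum_cf f)]
  refine sum_le_sum fun c hc => ?_
  have h1 : ∑ f ∈ univ.filter (fun f : Fin n → Fin d => cf f = c), G (cf f) / (Wc (cf f) : ℚ) =
      ((univ.filter fun f : Fin n → Fin d => cf f = c).card : ℚ) * (G c / (Wc c : ℚ)) := by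
    rw [sum_congr rfl fun f hf => by rw [(mem_filter.1 hf).2], sum_const, nsmul_eq_mul]
  rw [h1]
  have h2 : ((univ.filter fun f : Fin n → Fin d => cf f = c).card : ℚ) ≤ (Wc c : ℚ) := by
    exact_mod_cast card_fiber hc
  have h3 : (0 : ℚ) < Wc c := by exact_mod_cast Wc_pos c
  calc ((univ.filter fun f : Fin n → Fin d => cf f = c).card : ℚ) * (G c / (Wc c : ℚ))
      ≤ (Wc c : ℚ) * (G c / (Wc c : ℚ)) :=
        mul_le_mul_of_nonneg_right h2 (div_nonneg (hG c) h3.le)
    _ = G c := by field_simp

/-- the positive counts -/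
def pt (c : Fin d → Fin (n + 1)) : Multiset ℕ :=
  ((univ : Finset (Fin d)).val.map fun i => (c i : ℕ)).filter (· ≠ 0)

/-- the partitions of `n` into at most `d` parts, as multisets -/
def TT (d n : ℕ) : Finset (Multiset ℕ) :=
  (univ.filter fun p : Nat.Partition n => p.parts.card ≤ d).image fun p => p.parts

theorem card_TT (d n : ℕ) : (TT d n).card ≤ partsAtMost d n := card_image_le

theorem pt_mem {c : Fin d → Fin (n + 1)} (hc : c ∈ SS d n) : pt c ∈ TT d n := by
  have h4 : ∑ i, (c i : ℕ) = n := (mem_filter.1 hc).2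
  refine mem_image.2 ⟨⟨pt c, ?_, ?_⟩, ?_, rfl⟩
  · intro i hi
    exact Nat.pos_of_ne_zero (Multiset.mem_filter.1 hi).2
  · have h5 : ((univ : Finset (Fin d)).val.map fun i => (c i : ℕ)).sum = n := h4
    have h6 := Multiset.filter_add_not (fun x : ℕ => x ≠ 0)
      ((univ : Finset (Fin d)).val.map fun i => (c i : ℕ))
    have h7 : (((univ : Finset (Fin d)).val.map fun i => (c i : ℕ)).filter
        (fun x : ℕ => ¬ x ≠ 0)).sum = 0 := by
      refine Multiset.sum_eq_zero fun x hx => ?_
      exact not_not.1 (Multiset.mem_filter.1 hx).2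
    rw [← h6, Multiset.sum_add, h7, add_zero] at h5
    exact h5
  · simp only [mem_filter, mem_univ, true_and]
    refine (Multiset.card_le_card (Multiset.filter_le _ _)).trans ?_
    simp

theorem pr_eq_count (c : Fin d → Fin (n + 1)) (r : ℕ) :
    pr c r = Multiset.count r ((univ : Finset (Fin d)).val.map fun i => (c i : ℕ)) := by
  rw [Multiset.count_map]
  unfold pr
  rw [card_def, filter_val]
  congr 1
  refine Multiset.filter_congr fun i _ => ?_
  exact eq_comm

theorem sum_pr (c : Fin d → Fin (n + 1)) : ∑ r ∈ range (n + 1), pr c r = d := by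
  have := card_eq_sum_card_fiberwise (s := (univ : Finset (Fin d))) (t := range (n + 1))
    (f := fun i => (c i : ℕ)) (fun i _ => by
      have := (c i).2
      simp only [coe_range, Set.mem_Iio]
      exact this)
  rw [card_univ, Fintype.card_fin] at this
  exact this.symm

theorem pr_of_pt {c c₀ : Fin d → Fin (n + 1)} (h : pt c = pt c₀) (r : ℕ) : pr c r = pr c₀ r := by
  have h1 : ∀ r, r ≠ 0 → pr c r = pr c₀ r := by
    intro r hr
    have e : ∀ c : Fin d → Fin (n + 1), pr c r = Multiset.count r (pt c) := by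
      intro c
      rw [pr_eq_count, pt, Multiset.count_filter_of_pos (p := fun x : ℕ => x ≠ 0) hr]
    rw [e, e, h]
  by_cases hr : r = 0
  · subst hr
    have h2 := sum_pr c
    have h3 := sum_pr c₀
    rw [sum_range_succ'] at h2 h3
    have h4 : ∑ k ∈ range n, pr c (k + 1) = ∑ k ∈ range n, pr c₀ (k + 1) :=
      sum_congr rfl fun k _ => h1 _ (by omega)
    omega
  · exact h1 r hr

theorem Mc_of_pt {c c₀ : Fin d → Fin (n + 1)} (h : pt c = pt c₀) : Mc c = Mc c₀ := by
  unfold Mc
  exact Nat.multinomial_congr fun r _ => pr_of_pt h r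

theorem Mc_spec (c : Fin d → Fin (n + 1)) :
    (∏ r ∈ range (n + 1), (pr c r).factorial) * Mc c = d.factorial := by
  have := Nat.multinomial_spec (range (n + 1)) (pr c)
  rw [sum_pr] at this
  exact this

theorem card_fiber_pt (c₀ : Fin d → Fin (n + 1)) :
    ((SS d n).filter fun c => pt c = pt c₀).card ≤ Mc c₀ := by
  have h1 := fibres (κ := Fin d) (ι := Fin (n + 1)) (fun r => pr c₀ (r : ℕ))
  rw [Fintype.card_fin, ← Mc_spec c₀, ← Fin.prod_univ_eq_prod_range (fun r => (pr c₀ r).factorial),
    mul_comm] at h1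
  have h5 : 0 < ∏ i : Fin (n + 1), (pr c₀ (i : ℕ)).factorial := prod_pos fun i _ => Nat.factorial_pos _
  refine le_trans (card_le_card ?_) (Nat.le_of_mul_le_mul_left h1 h5)
  intro c hc
  simp only [mem_filter, mem_univ, true_and] at hc ⊢
  intro r
  have := pr_of_pt hc.2 (r : ℕ)
  rw [← this]
  unfold pr
  congr 1
  ext i
  simp [Fin.ext_iff]

theorem sum_inv_Mc : ∑ c ∈ SS d n, (1 : ℚ) / Mc c ≤ partsAtMost d n := by
  rw [← sum_fiberwise_of_maps_to (s := SS d n) (t := TT d n) (g := pt) (fun c hc => pt_mem hc)]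
  have h : ∀ μ ∈ TT d n, ∑ c ∈ (SS d n).filter (fun c => pt c = μ), (1 : ℚ) / Mc c ≤ 1 := by
    intro μ _
    rcases ((SS d n).filter fun c => pt c = μ).eq_empty_or_nonempty with h | ⟨c₀, hc₀⟩
    · rw [h]; simp
    · have hμ : pt c₀ = μ := (mem_filter.1 hc₀).2
      subst hμ
      rw [sum_congr rfl fun c hc => by rw [Mc_of_pt (mem_filter.1 hc).2], sum_const, nsmul_eq_mul,
        mul_one_div]
      have h2 : (0 : ℚ) < Mc c₀ := by exact_mod_cast Mc_pos c₀
      rw [div_le_one h2]
      exact_mod_cast card_fiber_pt c₀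
  calc _ ≤ ∑ μ ∈ TT d n, (1 : ℚ) := sum_le_sum h
    _ = (TT d n).card := by simp
    _ ≤ partsAtMost d n := by exact_mod_cast card_TT d n

theorem card_SS : (SS d n).card ≤ partsAtMost d n * d.factorial := by
  rw [card_eq_sum_card_fiberwise (s := SS d n) (t := TT d n) (f := pt)
    (fun c hc => pt_mem (mem_coe.1 hc))]
  have h : ∀ μ ∈ TT d n, ((SS d n).filter fun c => pt c = μ).card ≤ d.factorial := by
    intro μ _
    rcases ((SS d n).filter fun c => pt c = μ).eq_empty_or_nonempty with h | ⟨c₀, hc₀⟩
    · rw [h]; simp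
    · have hμ : pt c₀ = μ := (mem_filter.1 hc₀).2
      subst hμ
      refine (card_fiber_pt c₀).trans ?_
      have h1 := Mc_spec c₀
      have h5 : 0 < ∏ r ∈ range (n + 1), (pr c₀ r).factorial :=
        prod_pos fun i _ => Nat.factorial_pos _
      calc Mc c₀ = 1 * Mc c₀ := (one_mul _).symm
        _ ≤ (∏ r ∈ range (n + 1), (pr c₀ r).factorial) * Mc c₀ := Nat.mul_le_mul_right _ h5
        _ = d.factorial := h1
  calc _ ≤ ∑ μ ∈ TT d n, d.factorial := sum_le_sum h
    _ = (TT d n).card * d.factorial := by rw [sum_const, smul_eq_mul]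
    _ ≤ partsAtMost d n * d.factorial := Nat.mul_le_mul_right _ (card_TT d n)

theorem tun_ofFn (f : Fin n → Fin d) : tripleUniformNormalized (List.ofFn f) =
    ((1 : ℚ) / Mc (cf f) / partsAtMost d n) / Wc (cf f) := by
  have e1 : (Nat.multinomial univ fun i : Fin d => (List.ofFn f).count i) = Wc (cf f) := by
    unfold Wc
    exact Nat.multinomial_congr fun i _ => count_ofFn f i
  have e2 : Nat.multinomial (range ((List.ofFn f).length + 1)) (mult (List.ofFn f)) = Mc (cf f) := by
    unfold Mc
    rw [List.length_ofFn]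
    refine Nat.multinomial_congr fun r _ => ?_
    unfold mult pr
    simp only [count_ofFn]
  unfold tripleUniformNormalized
  rw [e1, e2, List.length_ofFn]
  rw [div_div, div_div, one_div, mul_inv, mul_inv]
  ring

theorem tun_nonneg (x : List (Fin d)) : 0 ≤ tripleUniformNormalized x := by
  unfold tripleUniformNormalized; positivity

theorem tun_mass (s : ℕ) : marg (tripleUniformNormalized (d := d)) s [] ≤ 1 := by
  rw [marg_eq]
  simp only [List.nil_append]
  rw [sum_congr rfl fun f _ => tun_ofFn f]
  refine (sum_words_le (fun c => (1 : ℚ) / Mc c / partsAtMost d s) fun c => by positivity).trans ?_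
  rw [← sum_div]
  have h := sum_inv_Mc (d := d) (n := s)
  rcases Nat.eq_zero_or_pos (partsAtMost d s) with h0 | h0
  · rw [h0]; simp
  · have : (0 : ℚ) < partsAtMost d s := by exact_mod_cast h0
    rw [div_le_one this]
    exact h

theorem lap_eq (f : Fin n → Fin d) : lap (List.ofFn f) =
    (((d - 1).factorial * n.factorial : ℕ) : ℚ) / ((n + (d - 1)).factorial : ℕ) / Wc (cf f) := by
  have h3 := Nat.multinomial_spec (univ : Finset (Fin d)) (fun i => (cf f i : ℕ))
  rw [sum_cf] at h3
  have hW : (0 : ℚ) < Wc (cf f) := by exact_mod_cast Wc_pos _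
  unfold lap
  have e : ∏ i : Fin d, ((List.ofFn f).count i).factorial = ∏ i : Fin d, ((cf f i : ℕ)).factorial :=
    prod_congr rfl fun i _ => by rw [count_ofFn]
  rw [e, List.length_ofFn, ← h3]
  change _ = (((d - 1).factorial * ((∏ i : Fin d, ((cf f i : ℕ)).factorial) * Wc (cf f)) : ℕ) : ℚ) /
    ((n + (d - 1)).factorial : ℕ) / Wc (cf f)
  have h2 : (((n + (d - 1)).factorial : ℕ) : ℚ) ≠ 0 := by exact_mod_cast (Nat.factorial_pos _).ne'
  push_cast at h2 ⊢
  field_simp

theorem marg_lap (hd : 1 ≤ d) (k : ℕ) (x : List (Fin d)) : marg lap k x = lap x := by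
  induction k generalizing x with
  | zero => rfl
  | succ k ih =>
    change ∑ a : Fin d, marg lap k (x ++ [a]) = _
    rw [sum_congr rfl fun a _ => ih _, ← lap_cons hd]

theorem binom_le (hd : 1 ≤ d) : ((n + (d - 1)).factorial : ℚ) ≤
    ((d - 1).factorial * n.factorial : ℕ) * ((partsAtMost d n * d.factorial : ℕ) : ℚ) := by
  have h1 : marg (lap (d := d)) n [] = 1 := by rw [marg_lap hd, lap_nil]
  rw [marg_eq] at h1
  simp only [List.nil_append] at h1
  rw [sum_congr rfl fun f _ => lap_eq f] at h1
  have h2 := sum_words_le (d := d) (n := n)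
    (fun _ => (((d - 1).factorial * n.factorial : ℕ) : ℚ) / ((n + (d - 1)).factorial : ℕ))
    (fun _ => by positivity)
  rw [h1, sum_const, nsmul_eq_mul] at h2
  have h3 : (0 : ℚ) < ((n + (d - 1)).factorial : ℕ) := by exact_mod_cast Nat.factorial_pos _
  have h4 : ((SS d n).card : ℚ) ≤ ((partsAtMost d n * d.factorial : ℕ) : ℚ) := by
    exact_mod_cast card_SS
  rw [mul_div_assoc', le_div_iff₀ h3, one_mul] at h2
  have h5 : (0 : ℚ) ≤ (((d - 1).factorial * n.factorial : ℕ) : ℚ) := by positivity
  calc ((n + (d - 1)).factorial : ℚ) ≤ ((SS d n).card : ℚ) * ((d - 1).factorial * n.factorial : ℕ) := h2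
    _ ≤ ((partsAtMost d n * d.factorial : ℕ) : ℚ) * ((d - 1).factorial * n.factorial : ℕ) :=
        mul_le_mul_of_nonneg_right h4 h5
    _ = _ := mul_comm _ _

theorem tun_le_lap (hd : 1 ≤ d) (x : List (Fin d)) :
    tripleUniformNormalized x ≤ (d.factorial : ℕ) * lap x := by
  suffices h : ∀ (n : ℕ) (f : Fin n → Fin d),
      tripleUniformNormalized (List.ofFn f) ≤ (d.factorial : ℕ) * lap (List.ofFn f) by
    have := h x.length x.get
    rwa [List.ofFn_get] at this
  intro n f
  rw [tun_ofFn, lap_eq]
  have hW : (0 : ℚ) < Wc (cf f) := by exact_mod_cast Wc_pos _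
  have hM : (1 : ℚ) ≤ Mc (cf f) := by exact_mod_cast Mc_pos _
  rw [← mul_div_assoc]
  refine div_le_div_of_nonneg_right ?_ hW.le
  rcases Nat.eq_zero_or_pos (partsAtMost d n) with h0 | h0
  · rw [h0]; simp; positivity
  · have hP : (0 : ℚ) < partsAtMost d n := by exact_mod_cast h0
    have h3 : (0 : ℚ) < ((n + (d - 1)).factorial : ℕ) := by exact_mod_cast Nat.factorial_pos _
    have h1 : (1 : ℚ) / Mc (cf f) / partsAtMost d n ≤ 1 / partsAtMost d n := by
      refine div_le_div_of_nonneg_right ?_ hP.le
      rw [div_le_one (by linarith)]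
      exact hM
    refine h1.trans ?_
    rw [mul_div_assoc', div_le_div_iff₀ hP h3, one_mul]
    have := binom_le (d := d) (n := n) hd
    push_cast at this ⊢
    nlinarith

theorem tu_le (x : List (Fin d)) : tripleUniform x ≤ tripleUniformNormalized x := by
  unfold tripleUniform tripleUniformNormalized
  refine mul_le_mul_of_nonneg_left ?_ (by positivity)
  have h0 : 0 < partsAtMost d x.length ∨ partsAtMost d x.length = 0 := by omega
  have hle : partsAtMost d x.length ≤ Fintype.card (Nat.Partition x.length) := by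
    unfold partsAtMost
    rw [← card_univ]
    exact card_le_card (filter_subset _ _)
  rcases h0 with h0 | h0
  · apply inv_anti₀
    · exact_mod_cast h0
    · exact_mod_cast hle
  · exfalso
    have h1 : cf x.get ∈ SS d x.length := by
      simp only [SS, mem_filter, mem_univ, true_and]; exact sum_cf _
    have h2 := pt_mem h1
    have h3 := card_TT d x.length
    rw [h0] at h3
    have h4 : TT d x.length = ∅ := card_eq_zero.1 (by omega)
    rw [h4] at h2
    simp at h2

end Pool.Agent.R567.GT
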