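import Pool.Agent.R567.GT3

set_option autoImplicit false

/-! Polynomial-time computability. -/

namespace Pool.Agent.R567.GT

open Pool.Agent.NPC Finset

instance finEnc (n : ℕ) : TEnc (Fin n) := ⟨fun i => toT (i : ℕ), fun _ _ h => Fin.ext (TEnc.inj h)⟩

variable {α β γ : Type} [TEnc α] [TEnc β] [TEnc γ]

theorem poly_take {l : α → List β} (hl : NPC.Poly l) (N : ℕ) : NPC.Poly (fun a => (l a).take N) := by
  induction N generalizing α with
  | zero => exact (NPC.Poly.const ([] : List β)).congr fun a => by simp
  | succ N ih =>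
    have h1 : NPC.Poly (fun p : α × β × List β => p.2.1 :: p.2.2.take N) :=
      NPC.Poly.cons (NPC.Poly.fst (NPC.Poly.snd NPC.Poly.id)) (ih (NPC.Poly.snd (NPC.Poly.snd NPC.Poly.id)))
    refine (NPC.Poly.listCases (g := fun _ => ([] : List β)) (h := fun _ b t => b :: t.take N) hl
      (NPC.Poly.const _) h1).congr fun a => ?_
    cases l a <;> rfl

theorem poly_table [DecidableEq β] (F : β → γ) (z : γ) (keys : List β) :
    NPC.Poly (fun b : β => if b ∈ keys then F b else z) := by
  induction keys with
  | nil => exact (NPC.Poly.const z).congr fun a => by simp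
  | cons k keys ih =>
    have h : NPC.Poly (fun b : β => if b = k then F k else if b ∈ keys then F b else z) :=
      NPC.Poly.ite (p := fun b : β => b = k) (NPC.Poly.decide_eq NPC.Poly.id (NPC.Poly.const k))
        (NPC.Poly.const (F k)) ih
    refine h.congr fun b => ?_
    by_cases hb : b = k
    · subst hb; simp
    · simp [hb]

theorem poly_prefix {d : ℕ} (F : List (Fin d) → ℕ) (N : ℕ) :
    NPC.Poly (fun x : List (Fin d) => F (x.take N)) := by
  classical
  have hfin : {l : List (Fin d) | l.length ≤ N}.Finite := List.finite_length_le (Fin d) N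
  set keys := hfin.toFinset.toList with hkeys
  have h := (poly_table F 0 keys).comp (poly_take (l := fun x : List (Fin d) => x) NPC.Poly.id N)
  refine h.congr fun x => ?_
  have : x.take N ∈ keys := by
    rw [hkeys, Finset.mem_toList, Set.Finite.mem_toFinset]
    simp
  rw [if_pos this]

theorem size_factorial (n : ℕ) : (n.factorial).size ≤ n * n + 1 := by
  rw [Nat.size_le]
  calc n.factorial ≤ n ^ n := Nat.factorial_le_pow n
    _ ≤ (2 ^ n) ^ n := Nat.pow_le_pow_left Nat.lt_two_pow_self.le n
    _ = 2 ^ (n * n) := by rw [← pow_mul]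
    _ < 2 ^ (n * n + 1) := Nat.pow_lt_pow_right (by norm_num) (by omega)

theorem poly_factorial {l : α → List β} (hl : NPC.Poly l) :
    NPC.Poly (fun a => ((l a).length).factorial) := by
  obtain ⟨r, hr⟩ := hl.sz_le
  have key : ∀ (l : List β) (k : ℕ),
      l.foldl (fun (s : ℕ × ℕ) (_ : β) => (s.1 + 1, s.2 * (s.1 + 1))) (k, k.factorial) =
        (k + l.length, (k + l.length).factorial) := by
    intro l
    induction l with
    | nil => intro k; rfl
    | cons b l ih =>
      intro k
      rw [List.foldl_cons]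
      have : k.factorial * (k + 1) = (k + 1).factorial := by rw [Nat.factorial_succ, mul_comm]
      simp only [this]
      rw [ih (k + 1), List.length_cons]
      have e : k + 1 + l.length = k + (l.length + 1) := by omega
      rw [e]
  have hF : NPC.Poly (fun p : α × (ℕ × ℕ) × β => ((p.2.1.1 + 1, p.2.1.2 * (p.2.1.1 + 1)) : ℕ × ℕ)) :=
    NPC.Poly.pair (NPC.Poly.succ (NPC.Poly.fst (NPC.Poly.fst (NPC.Poly.snd NPC.Poly.id))))
      (NPC.Poly.mul (NPC.Poly.snd (NPC.Poly.fst (NPC.Poly.snd NPC.Poly.id)))
        (NPC.Poly.succ (NPC.Poly.fst (NPC.Poly.fst (NPC.Poly.snd NPC.Poly.id)))))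
  have h := NPC.Poly.foldl (l := l) (s := fun _ => ((0, 1) : ℕ × ℕ))
    (F := fun _ s _ => (s.1 + 1, s.2 * (s.1 + 1))) hl (NPC.Poly.const _) hF
    (Polynomial.C 4 * r + Polynomial.C 4 * r * r + Polynomial.C 16) (by
      intro a k hk
      have e : ((l a).take k).foldl (fun (s : ℕ × ℕ) (_ : β) => (s.1 + 1, s.2 * (s.1 + 1))) (0, 1) =
          (k, k.factorial) := by
        have := key ((l a).take k) 0
        rw [List.length_take, min_eq_left hk, Nat.factorial_zero, zero_add] at this
        exact this
      rw [e]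
      have h1 : (l a).length < sz (l a) := length_lt_sz (l a)
      have h2 := hr a
      have h3 : k ≤ r.eval (sz a) := by omega
      have h4 := sz_nat_le k
      have h5 := sz_nat_le k.factorial
      have h6 : k.size ≤ k := NPC.Poly.size_le_self k
      have h7 := size_factorial k
      have h8 : k * k ≤ r.eval (sz a) * r.eval (sz a) := Nat.mul_le_mul h3 h3
      have h9 : sz ((k, k.factorial) : ℕ × ℕ) = sz k + sz k.factorial + 1 := by
        simp only [sz_pair]
        try omega
      rw [h9]
      simp only [Polynomial.eval_add, Polynomial.eval_mul, Polynomial.eval_C]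
      nlinarith)
  refine (NPC.Poly.snd h).congr fun a => ?_
  have := key (l a) 0
  rw [Nat.factorial_zero, zero_add] at this
  rw [this]

/-- numerator of the Laplace estimator -/
def LN {d : ℕ} (x : List (Fin d)) : ℕ := (d - 1).factorial * ∏ i : Fin d, (x.count i).factorial

/-- denominator of the Laplace estimator -/
def LD {d : ℕ} (x : List (Fin d)) : ℕ := (x.length + (d - 1)).factorial

theorem poly_LN (d : ℕ) : NPC.Poly (fun x : List (Fin d) => LN x) := by
  have h1 : ∀ i : Fin d, NPC.Poly (fun x : List (Fin d) => (x.count i).factorial) := by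
    intro i
    have h2 : NPC.Poly (fun x : List (Fin d) => x.filter fun a => decide (a = i)) :=
      NPC.Poly.filter (l := fun x : List (Fin d) => x) (p := fun _ a => decide (a = i)) NPC.Poly.id
        (NPC.Poly.decide_eq (NPC.Poly.snd NPC.Poly.id) (NPC.Poly.const i))
    refine (poly_factorial h2).congr fun x => ?_
    congr 1
    rw [List.count_eq_countP, List.countP_eq_length_filter]
    rfl
  have h3 : ∀ L : List (Fin d),
      NPC.Poly (fun x : List (Fin d) => (L.map fun i => (x.count i).factorial).prod) := by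
    intro L
    induction L with
    | nil => exact (NPC.Poly.const 1).congr fun x => by simp
    | cons i L ih =>
      refine (NPC.Poly.mul (h1 i) ih).congr fun x => ?_
      simp
  refine (NPC.Poly.mul (NPC.Poly.const (d - 1).factorial) (h3 (List.finRange d))).congr fun x => ?_
  unfold LN
  rw [Fin.prod_univ_def]

theorem poly_LD (d : ℕ) : NPC.Poly (fun x : List (Fin d) => LD x) := by
  have h1 : NPC.Poly (fun x : List (Fin d) => (x.map fun _ => ()) ++ List.replicate (d - 1) ()) :=
    NPC.Poly.append (NPC.Poly.map (l := fun x : List (Fin d) => x) (F := fun _ _ => ()) NPC.Poly.id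
      (NPC.Poly.const ())) (NPC.Poly.const _)
  refine (poly_factorial h1).congr fun x => ?_
  unfold LD
  simp

/-- numerator and denominator of the mixture -/
theorem poly_mix {d : ℕ} (q : List (Fin d) → ℚ) (N : ℕ) (hpos : ∀ x, 0 < mix q N x) :
    ∃ P Q : List (Fin d) → ℕ, NPC.Poly (fun x => (P x, Q x)) ∧
      ∀ x, 0 < Q x ∧ mix q N x = (P x : ℚ) / Q x := by
  refine ⟨fun x => (mix q N (x.take N) / lap (x.take N)).num.toNat * LN x,
    fun x => (mix q N (x.take N) / lap (x.take N)).den * LD x, ?_, fun x => ⟨?_, ?_⟩⟩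
  · exact NPC.Poly.pair
      (NPC.Poly.mul (poly_prefix (fun y => (mix q N y / lap y).num.toNat) N) (poly_LN d))
      (NPC.Poly.mul (poly_prefix (fun y => (mix q N y / lap y).den) N) (poly_LD d))
  · exact Nat.mul_pos (Rat.den_pos _) (Nat.factorial_pos _)
  · rw [mix_ratio]
    change _ = (((mix q N (x.take N) / lap (x.take N)).num.toNat * LN x : ℕ) : ℚ) /
      (((mix q N (x.take N) / lap (x.take N)).den * LD x : ℕ) : ℚ)
    have ht0 : 0 < mix q N (x.take N) / lap (x.take N) := div_pos (hpos _) (lap_pos _)
    generalize mix q N (x.take N) / lap (x.take N) = t at ht0 ⊢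
    have h1 : (t.num.toNat : ℤ) = t.num := Int.toNat_of_nonneg (Rat.num_nonneg.2 ht0.le)
    have h2 : ((t.num.toNat : ℕ) : ℚ) = (t.num : ℚ) := by exact_mod_cast h1
    have h3 : (t.num : ℚ) / (t.den : ℚ) = t := Rat.num_div_den t
    have h4 : lap x = (LN x : ℚ) / (LD x : ℚ) := rfl
    have h5 : (LD x : ℚ) ≠ 0 := by exact_mod_cast (Nat.factorial_pos _).ne'
    have h6 : (t.den : ℚ) ≠ 0 := by exact_mod_cast (Rat.den_pos t).ne'
    rw [Nat.cast_mul, Nat.cast_mul, h2, h4]
    calc (LN x : ℚ) / (LD x : ℚ) * t = (LN x : ℚ) / (LD x : ℚ) * ((t.num : ℚ) / (t.den : ℚ)) := by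
          rw [h3]
      _ = _ := by field_simp

end Pool.Agent.R567.GT
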