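import Pool.Agent.R537.LR.Stm

/-!
# LR-SUM: double sums over lists (helper567)
-/

set_option autoImplicit false

namespace Pool.Agent.R567.LRSUM

open Pool.Agent.NPC.R537LR

theorem sum_get {α : Type} (l : List α) (f : α → ℕ) :
    (l.map f).sum = ∑ i : Fin l.length, f (l.get i) := by
  induction l with
  | nil => simp
  | cons a l ih =>
    rw [List.map_cons, List.sum_cons, ih]
    exact (Fin.sum_univ_succ (fun i : Fin (l.length + 1) => f ((a :: l).get i))).symm

theorem t_SUM : S_SUM := by
  intro ρ κ R C g
  rw [List.flatMap_def, List.sum_flatten, List.map_map, sum_get]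
  refine Finset.sum_congr rfl fun i _ => ?_
  exact sum_get C (fun c => g (R.get i) c)

end Pool.Agent.R567.LRSUM
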